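import Pool.Agent.Q131.Params

/-!
Absorbing the countable bad set: a fixed-point-free free group of piecewise isometries on the
quadrangle itself.
-/

namespace Pool.Agent.Q131.Absorb

open Pool.Agent.Q131.PP Pool.Agent.Q131.Model Pool.Agent.Q131.Exch Pool.Agent.Q131.Params
open Matrix

noncomputable section

section abstract

variable {α : Type*}

/-- restricting a family of permutations to an invariant subset -/
def restr (f : Bool → Equiv.Perm α) (Z : Set α) (hinv : ∀ b x, f b x ∉ Z ↔ x ∉ Z) :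
    Bool → Equiv.Perm {x // x ∉ Z} := fun b => (f b).subtypePerm (hinv b)

lemma lift_restr (f : Bool → Equiv.Perm α) (Z : Set α) (hinv : ∀ b x, f b x ∉ Z ↔ x ∉ Z)
    (w : FreeGroup Bool) : ∀ x : {x // x ∉ Z},
      ((FreeGroup.lift (restr f Z hinv) w x : {x // x ∉ Z}) : α) = FreeGroup.lift f w x := by
  induction w using FreeGroup.induction_on with
  | C1 => intro x; simp
  | of b => intro x; simp [restr]
  | inv_of b _ =>
    intro x
    simp only [map_inv, FreeGroup.lift_apply_of]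
    rw [Equiv.Perm.eq_inv_iff_eq]
    have : ((restr f Z hinv b) ((restr f Z hinv b)⁻¹ x) : {x // x ∉ Z}) = x := by simp
    conv_rhs => rw [← this]
    rfl
  | mul a b ha hb =>
    intro x
    simp only [map_mul, Equiv.Perm.mul_apply]
    rw [ha, hb]

lemma lift_conj {β : Type*} (f : Bool → Equiv.Perm β) (h : α ≃ β) (w : FreeGroup Bool) :
    ∀ x, FreeGroup.lift (fun b => (h.trans (f b)).trans h.symm) w x =
      h.symm (FreeGroup.lift f w (h x)) := by
  induction w using FreeGroup.induction_on with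
  | C1 => intro x; simp
  | of b => intro x; simp
  | inv_of b _ =>
    intro x
    simp only [map_inv, FreeGroup.lift_apply_of]
    rw [Equiv.Perm.inv_eq_iff_eq]
    simp
  | mul a b ha hb =>
    intro x
    simp only [map_mul, Equiv.Perm.mul_apply]
    rw [ha, hb, Equiv.apply_symm_apply]

/-- the absorbing map -/
theorem absorb_equiv (Z : Set α) (γ : Equiv.Perm α) (hγ : ∀ n : ℕ, ∀ z ∈ Z, (γ ^ (n + 1)) z ∉ Z) :
    ∃ h : α ≃ {x // x ∉ Z}, ∀ x, (h x : α) = x ∨ (h x : α) = γ x := by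
  classical
  set E : Set α := {x | ∃ n : ℕ, ∃ z ∈ Z, x = (γ ^ n) z} with hE
  have hZE : Z ⊆ E := fun z hz => ⟨0, z, hz, by simp⟩
  have hγE : ∀ x ∈ E, γ x ∈ E ∧ γ x ∉ Z := by
    rintro x ⟨n, z, hz, rfl⟩
    have : γ ((γ ^ n) z) = (γ ^ (n + 1)) z := by rw [pow_succ', Equiv.Perm.mul_apply]
    rw [this]
    exact ⟨⟨n + 1, z, hz, rfl⟩, hγ n z hz⟩
  set h0 : α → α := fun x => if x ∈ E then γ x else x with hh0
  have h1 : ∀ x, h0 x ∉ Z := by
    intro x
    simp only [hh0]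
    split_ifs with h
    · exact (hγE x h).2
    · exact fun hz => h (hZE hz)
  set h : α → {x // x ∉ Z} := fun x => ⟨h0 x, h1 x⟩ with hh
  have hinj : Function.Injective h := by
    intro x y hxy
    have h2 : h0 x = h0 y := congrArg Subtype.val hxy
    simp only [hh0] at h2
    split_ifs at h2 with a b b
    · exact γ.injective h2
    · exact absurd (h2 ▸ (hγE x a).1) b
    · exact absurd (h2 ▸ (hγE y b).1) a
    · exact h2
  have hsurj : Function.Surjective h := by
    rintro ⟨y, hy⟩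
    by_cases hyE : y ∈ E
    · obtain ⟨n, z, hz, rfl⟩ := hyE
      cases n with
      | zero => exact absurd (by simpa using hz) hy
      | succ n =>
        refine ⟨(γ ^ n) z, Subtype.ext ?_⟩
        have hm : (γ ^ n) z ∈ E := ⟨n, z, hz, rfl⟩
        simp only [hh, hh0, if_pos hm]
        rw [pow_succ', Equiv.Perm.mul_apply]
    · refine ⟨y, Subtype.ext ?_⟩
      simp only [hh, hh0, if_neg hyE]
  refine ⟨Equiv.ofBijective h ⟨hinj, hsurj⟩, ?_⟩
  intro x
  simp only [Equiv.ofBijective_apply, hh, hh0]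
  split_ifs
  · exact Or.inr rfl
  · exact Or.inl rfl

end abstract

/-- piecewise in a finite set of group elements -/
def PI (f : Equiv.Perm (Q 1)) : Prop :=
  ∃ S : Set (SpecialLinearGroup (Fin 2) ℝ), S.Finite ∧
    ∀ p, ∃ g ∈ S, ((f p : Q 1) : ℝ × ℝ) = gact g p

lemma legal_one {θ : ℝ} (h1 : 2 * Real.arsinh 1 < (1 + Real.sqrt 2) * θ)
    (h2 : Real.sqrt 2 * θ < 2 * Real.arsinh (1 / Real.sqrt 2)) : Legal 1 θ (Real.sqrt 2 * θ) := by
  have hs := sqrt2_gt
  have ha : 0 < Real.arsinh 1 := Real.arsinh_pos_iff.mpr one_pos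
  have hθ : 0 < θ := by
    by_contra h
    push Not at h
    nlinarith
  have key : ∀ y : ℝ, -1 ≤ y → y < 1 → Real.arsinh (1 / Real.sqrt 2) ≤ hw 1 y ∧
      hw 1 y ≤ Real.arsinh 1 := by
    intro y h3 h4
    unfold hw
    rw [Real.arsinh_le_arsinh, Real.arsinh_le_arsinh]
    have e1 : 1 ≤ Real.sqrt (1 + y ^ 2) := by
      rw [show (1:ℝ) = Real.sqrt 1 by simp]
      apply Real.sqrt_le_sqrt
      simp only [Real.sqrt_one]
      nlinarith [sq_nonneg y]
    have e2 : Real.sqrt (1 + y ^ 2) ≤ Real.sqrt 2 := Real.sqrt_le_sqrt (by nlinarith)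
    constructor
    · apply one_div_le_one_div_of_le _ e2; linarith
    · rw [div_le_one (by linarith)]; exact e1
  refine ⟨one_pos, hθ, by positivity, ?_, ?_, ?_⟩
  · intro y h3 h4
    have := (key y h3 h4).1
    nlinarith
  · intro y h3 h4
    have := (key y h3 h4).1
    linarith
  · intro y h3 h4
    have := (key y h3 h4).2
    linarith

lemma gap : 2 * Real.arsinh 1 / (1 + Real.sqrt 2) < 2 * Real.arsinh (1 / Real.sqrt 2) / Real.sqrt 2 := by
  have hs := sqrt2_gt
  have hs' := sqrt2_lt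
  have hsq := sqrt2_sq
  set a := Real.arsinh (1 / Real.sqrt 2) with ha
  have hsa : Real.sinh a = 1 / Real.sqrt 2 := Real.sinh_arsinh _
  have hb : Real.sinh (Real.arsinh 1) = 1 := Real.sinh_arsinh _
  have hap : 0 < a := Real.arsinh_pos_iff.mpr (by positivity)
  have hbp : 0 < Real.arsinh 1 := Real.arsinh_pos_iff.mpr one_pos
  -- 2 arsinh 1 < 3 a
  have key : 2 * Real.arsinh 1 < 3 * a := by
    rw [← Real.sinh_lt_sinh, Real.sinh_two_mul, Real.sinh_three_mul, hb, hsa, Real.cosh_arsinh]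
    have h2 : (1:ℝ) + 1 ^ 2 = 2 := by norm_num
    rw [h2]
    have e : (1 / Real.sqrt 2) = Real.sqrt 2 / 2 := by
      field_simp; nlinarith
    rw [e]
    nlinarith
  rw [div_lt_div_iff₀ (by linarith) (by linarith)]
  -- 2 b √2 < 2 a (1+√2)
  have : Real.sqrt 2 * 3 < 2 * (1 + Real.sqrt 2) := by linarith
  nlinarith

lemma exists_param {B : Set ℝ} (hB : B.Countable) : ∃ θ, Legal 1 θ (Real.sqrt 2 * θ) ∧ θ ∉ B := by
  obtain ⟨θ, h1, h2, h3⟩ := exists_good hB gap
  have hs := sqrt2_gt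
  refine ⟨θ, legal_one ?_ ?_, h3⟩
  · rw [div_lt_iff₀ (by linarith)] at h1; linarith
  · rw [lt_div_iff₀ (by linarith)] at h2; linarith

lemma PI_ph {c u v : ℝ} (h : Legal c u v) (p : Q c) :
    ∃ a : ℤ × ℤ, sg true a ∧ sz 1 a ∧ ((phP h p : Q c) : ℝ × ℝ) = mX (am u v a) p := by
  obtain ⟨a, h1, h2, h3⟩ := let_spec h (true, true) p
  refine ⟨a, h1, h2, ?_⟩
  rw [← gact_bX]; exact h3

lemma PI_gen {u v : ℝ} (h : Legal 1 u v) (b : Bool) : PI (gen h b) := by
  have hf : {a : ℤ × ℤ | sz 1 a}.Finite := by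
    have : {b : ℤ × ℤ | sz 1 b} ⊆ (Set.Icc (-1) 1) ×ˢ (Set.Icc (-1) 1) := by
      rintro b ⟨h1, h2⟩
      rw [abs_le] at h1 h2
      exact ⟨⟨h1.1, h1.2⟩, ⟨h2.1, h2.2⟩⟩
    exact ((Set.finite_Icc _ _).prod (Set.finite_Icc _ _)).subset this
  refine ⟨(fun a => bT b (am u v a)) '' {a : ℤ × ℤ | sz 1 a}, hf.image _, ?_⟩
  intro p
  obtain ⟨a, h1, h2, h3⟩ := let_spec h (b, true) p
  exact ⟨_, ⟨a, h2, rfl⟩, h3⟩

lemma ph_pow {c u v : ℝ} (h : Legal c u v) (n : ℕ) (p : Q c) :
    ∃ a : ℤ × ℤ, sg true a ∧ (((phP h ^ (n + 1)) p : Q c) : ℝ × ℝ) = mX (am u v a) p := by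
  induction n with
  | zero =>
    obtain ⟨a, h1, _, h3⟩ := PI_ph h p
    exact ⟨a, h1, by simpa using h3⟩
  | succ n ih =>
    obtain ⟨a, h1, h2⟩ := ih
    obtain ⟨d, d1, _, d3⟩ := PI_ph h ((phP h ^ (n + 1)) p)
    refine ⟨a + d, sg_add h1 d1, ?_⟩
    rw [pow_succ', Equiv.Perm.mul_apply, d3, h2, mX_mX, am_add]

/-- The model theorem: a free group of rank two of piecewise boosts acting freely on `Q 1`. -/
theorem model : ∃ f : Bool → Equiv.Perm (Q 1), (∀ b, PI (f b)) ∧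
    ∀ w : FreeGroup Bool, w ≠ 1 → ∀ x, FreeGroup.lift f w x ≠ x := by
  obtain ⟨θ, hL, hg⟩ := exists_param generic_first
  simp only [Set.mem_ofPred_eq, not_not] at hg
  -- the bad set
  set Z : Set (Q 1) := {x | ∃ w : FreeGroup Bool, w ≠ 1 ∧ FreeGroup.lift (gen hL) w x = x} with hZ
  have hZc : Z.Countable := by
    have : Z ⊆ ⋃ w : FreeGroup Bool, {x | w ≠ 1 ∧ FreeGroup.lift (gen hL) w x = x} := by
      rintro x ⟨w, hw⟩
      simp only [Set.mem_iUnion]
      exact ⟨w, hw⟩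
    have hcw : Countable (FreeGroup Bool) := by
      have : Function.Injective (FreeGroup.toWord : FreeGroup Bool → List (Bool × Bool)) :=
        FreeGroup.toWord_injective
      exact this.countable
    apply Set.Countable.mono this
    apply Set.countable_iUnion
    intro w
    by_cases hw : w = 1
    · apply Set.Countable.mono _ Set.countable_empty
      rintro x ⟨h, _⟩
      exact h hw
    · apply (finite_fix hL hg w hw).countable.mono
      rintro x ⟨_, h⟩
      exact h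
  have hinv : ∀ b x, gen hL b x ∉ Z ↔ x ∉ Z := by
    intro b x
    rw [not_iff_not]
    constructor
    · rintro ⟨w, hw, h⟩
      refine ⟨(FreeGroup.of b)⁻¹ * w * FreeGroup.of b, ?_, ?_⟩
      · intro h1
        apply hw
        have : w = FreeGroup.of b * ((FreeGroup.of b)⁻¹ * w * FreeGroup.of b) *
          (FreeGroup.of b)⁻¹ := by group
        rw [this, h1]; group
      · simp only [map_mul, map_inv, FreeGroup.lift_apply_of, Equiv.Perm.mul_apply]
        rw [h]; simp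
    · rintro ⟨w, hw, h⟩
      refine ⟨FreeGroup.of b * w * (FreeGroup.of b)⁻¹, ?_, ?_⟩
      · intro h1
        apply hw
        have : w = (FreeGroup.of b)⁻¹ * (FreeGroup.of b * w * (FreeGroup.of b)⁻¹) *
          FreeGroup.of b := by group
        rw [this, h1]; group
      · simp only [map_mul, map_inv, FreeGroup.lift_apply_of, Equiv.Perm.mul_apply]
        have e : (gen hL b)⁻¹ ((gen hL b) x) = x := by simp
        rw [e, h]
  -- the second parameter
  set B : Set ℝ := (fun t : (Q 1 × Q 1) × (ℤ × ℤ) =>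
    (sX t.1.2 - sX t.1.1) / ((t.2.1 : ℝ) * Real.sqrt 2 + t.2.2)) '' ((Z ×ˢ Z) ×ˢ Set.univ) with hB
  have hBc : B.Countable :=
    ((hZc.prod hZc).prod (Set.to_countable _)).image _
  obtain ⟨θ', hL', hg'⟩ := exists_param hBc
  set γ := phP hL' with hγ
  have hγZ : ∀ n : ℕ, ∀ z ∈ Z, (γ ^ (n + 1)) z ∉ Z := by
    intro n z hz hz'
    apply hg'
    obtain ⟨a, h1, h2⟩ := ph_pow hL' n z
    refine ⟨((z, (γ ^ (n + 1)) z), a), ⟨⟨hz, hz'⟩, Set.mem_univ _⟩, ?_⟩
    have hne := irr_ne h1.2.2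
    simp only
    rw [h2, sX_mX, div_eq_iff hne]
    unfold am
    ring
  obtain ⟨h, hh⟩ := absorb_equiv Z γ hγZ
  refine ⟨fun b => (h.trans (restr (gen hL) Z hinv b)).trans h.symm, ?_, ?_⟩
  · intro b
    obtain ⟨S, hS, hS'⟩ := PI_gen hL b
    obtain ⟨T, hT, hT'⟩ := PI_gen hL' true
    -- the finite sets
    set T1 := insert 1 T with hT1
    have hT1f : T1.Finite := hT.insert 1
    set R := Set.image2 (fun x y => x * y) ((fun g => g⁻¹) '' T1) (Set.image2 (fun x y => x * y) S T1)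
      with hR
    have hRf : R.Finite := (hT1f.image _).image2 _ (hS.image2 _ hT1f)
    refine ⟨R, hRf, ?_⟩
    intro p
    -- h p
    have s1 : ∃ g ∈ T1, ((h p : Q 1) : ℝ × ℝ) = gact g p := by
      rcases hh p with e | e
      · exact ⟨1, Set.mem_insert _ _, by rw [e, gact_one]⟩
      · obtain ⟨g, hg1, hg2⟩ := hT' p
        refine ⟨g, Set.mem_insert_of_mem _ hg1, ?_⟩
        rw [e]; exact hg2
    obtain ⟨g1, hg1, e1⟩ := s1
    obtain ⟨g2, hg2, e2⟩ := hS' (h p)
    set q : {x // x ∉ Z} := restr (gen hL) Z hinv b (h p) with hq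
    have eq1 : ((q : Q 1) : ℝ × ℝ) = gact g2 ((h p : Q 1) : ℝ × ℝ) := e2
    have s3 : ∃ g ∈ T1, ((h.symm q : Q 1) : ℝ × ℝ) = gact g⁻¹ ((q : Q 1) : ℝ × ℝ) := by
      have hx := hh (h.symm q)
      rw [Equiv.apply_symm_apply] at hx
      rcases hx with e | e
      · exact ⟨1, Set.mem_insert _ _, by rw [inv_one, gact_one, e]⟩
      · obtain ⟨g, hg1, hg2⟩ := hT' (h.symm q)
        refine ⟨g, Set.mem_insert_of_mem _ hg1, ?_⟩
        rw [e]
        change _ = gact g⁻¹ ((gen hL' true (h.symm q) : Q 1) : ℝ × ℝ)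
        rw [hg2, gact_inv_gact]
    obtain ⟨g3, hg3, e3⟩ := s3
    refine ⟨g3⁻¹ * (g2 * g1), ⟨g3⁻¹, ⟨g3, hg3, rfl⟩, g2 * g1, ⟨g2, hg2, g1, hg1, rfl⟩, rfl⟩, ?_⟩
    change ((h.symm q : Q 1) : ℝ × ℝ) = _
    rw [e3, eq1, e1, gact_mul, gact_mul]
  · intro w hw x hx
    rw [lift_conj] at hx
    have hx2 := congrArg h hx
    rw [Equiv.apply_symm_apply] at hx2
    have hx3 := congrArg Subtype.val hx2
    rw [lift_restr] at hx3
    exact (h x).2 ⟨w, hw, hx3⟩

end

end Pool.Agent.Q131.Absorb
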