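import Pool.Agent.Q131.Params

/-!
The Poincaré disk and hyperboloid coordinates.
-/

namespace Pool.Agent.Q131.Disk

open Pool.Agent.Q131.PP Pool.Agent.Q131.Model Pool.Agent.Q131.Exch Pool.Agent.Q131.Params

noncomputable section

/-- `|z|^2` in coordinates -/
def nn (z : ℂ) : ℝ := z.re ^ 2 + z.im ^ 2

lemma norm_sq (z : ℂ) : ‖z‖ ^ 2 = nn z := by
  rw [← Complex.normSq_eq_norm_sq, Complex.normSq_apply]; unfold nn; ring

lemma nn_lt {z : ℂ} (hz : ‖z‖ < 1) : nn z < 1 := by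
  rw [← norm_sq]; have := norm_nonneg z; nlinarith

lemma norm_lt {z : ℂ} (hz : nn z < 1) : ‖z‖ < 1 := by
  rw [← norm_sq] at hz; have := norm_nonneg z; nlinarith

/-- hyperboloid coordinates of a point of the disk -/
def pt (z : ℂ) : ℝ × ℝ := (2 * z.re / (1 - nn z), 2 * z.im / (1 - nn z))

/-- disk point with given coordinates -/
def dk (p : ℝ × ℝ) : ℂ := ⟨p.1 / (1 + ZZ p), p.2 / (1 + ZZ p)⟩

lemma ZZ_ge (p : ℝ × ℝ) : 1 ≤ ZZ p := by
  have := ZZ_sq p; have := ZZ_pos p; nlinarith [sq_nonneg p.1, sq_nonneg p.2]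

lemma ZZ_pt {z : ℂ} (hz : nn z < 1) : ZZ (pt z) = (1 + nn z) / (1 - nn z) := by
  have h0 : 0 ≤ nn z := by unfold nn; positivity
  have h1 : 0 < 1 - nn z := by linarith
  unfold ZZ
  rw [Real.sqrt_eq_iff_mul_self_eq (by positivity) (by positivity)]
  unfold pt
  simp only
  have e : z.re ^ 2 = nn z - z.im ^ 2 := by unfold nn; ring
  field_simp
  rw [e]; ring

lemma nn_dk (p : ℝ × ℝ) : nn (dk p) = (ZZ p - 1) / (ZZ p + 1) := by
  have h := ZZ_pos p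
  have h2 := ZZ_sq p
  unfold nn dk
  simp only
  field_simp
  linear_combination -h2 * (1 + ZZ p)

lemma nn_dk_lt (p : ℝ × ℝ) : nn (dk p) < 1 := by
  have h := ZZ_pos p
  rw [nn_dk, div_lt_one (by linarith)]; linarith

lemma pt_dk (p : ℝ × ℝ) : pt (dk p) = p := by
  have h := ZZ_pos p
  have e : 1 - nn (dk p) = 2 / (1 + ZZ p) := by rw [nn_dk]; field_simp; ring
  unfold pt
  rw [e]
  unfold dk
  ext <;> simp only <;> field_simp

lemma dk_pt {z : ℂ} (hz : nn z < 1) : dk (pt z) = z := by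
  have h1 : 0 < 1 - nn z := by linarith
  have e : 1 + ZZ (pt z) = 2 / (1 - nn z) := by rw [ZZ_pt hz]; field_simp; ring
  unfold dk
  rw [e]
  unfold pt
  apply Complex.ext <;> simp only <;> field_simp

/-- hyperbolic distance of the Poincaré disk -/
def hdist (z w : ℂ) : ℝ :=
  Real.arcosh (1 + 2 * ‖z - w‖ ^ 2 / ((1 - ‖z‖ ^ 2) * (1 - ‖w‖ ^ 2)))

lemma hdist_eq {z w : ℂ} (hz : nn z < 1) (hw : nn w < 1) : hdist z w =
    Real.arcosh (ZZ (pt z) * ZZ (pt w) - (pt z).1 * (pt w).1 - (pt z).2 * (pt w).2) := by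
  unfold hdist
  rw [norm_sq, norm_sq, norm_sq, ZZ_pt hz, ZZ_pt hw]
  congr 1
  have h1 : 0 < 1 - nn z := by linarith
  have h2 : 0 < 1 - nn w := by linarith
  unfold pt
  have e : nn (z - w) = nn z + nn w - 2 * z.re * w.re - 2 * z.im * w.im := by
    unfold nn; simp; ring
  rw [e]
  simp only
  field_simp
  ring

/-- hyperbolic distance to the imaginary axis -/
def distIm (z : ℂ) : ℝ := sInf {d | ∃ t : ℝ, |t| < 1 ∧ d = hdist z ((t : ℂ) * Complex.I)}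

/-- hyperbolic distance to the real axis -/
def distRe (z : ℂ) : ℝ := sInf {d | ∃ t : ℝ, |t| < 1 ∧ d = hdist z (t : ℂ)}

lemma arsinh_abs (x : ℝ) : Real.arcosh (Real.sqrt (1 + x ^ 2)) = Real.arsinh |x| := by
  have h : 0 ≤ Real.arsinh |x| := Real.arsinh_nonneg_iff.mpr (abs_nonneg x)
  rw [← sq_abs x, ← Real.cosh_arsinh, Real.arcosh_cosh h]

lemma sInf_aux (S : Set ℝ) (m : ℝ) (h1 : ∀ d ∈ S, m ≤ d) (h2 : m ∈ S) : sInf S = m :=
  le_antisymm (csInf_le ⟨m, h1⟩ h2) (le_csInf ⟨m, h2⟩ h1)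

lemma key_ineq (X Y y' : ℝ) :
    Real.sqrt (1 + X ^ 2) ≤ Real.sqrt (1 + X ^ 2 + Y ^ 2) * Real.sqrt (1 + y' ^ 2) - Y * y' := by
  have h1 : Real.sqrt (1 + X ^ 2) ^ 2 = 1 + X ^ 2 := Real.sq_sqrt (by positivity)
  have h2 : Real.sqrt (1 + X ^ 2 + Y ^ 2) ^ 2 = 1 + X ^ 2 + Y ^ 2 := Real.sq_sqrt (by positivity)
  have h3 : Real.sqrt (1 + y' ^ 2) ^ 2 = 1 + y' ^ 2 := Real.sq_sqrt (by positivity)
  have p1 := Real.sqrt_nonneg (1 + X ^ 2)
  have p2 := Real.sqrt_nonneg (1 + X ^ 2 + Y ^ 2)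
  have p3 := Real.sqrt_nonneg (1 + y' ^ 2)
  set s := Real.sqrt (1 + X ^ 2)
  set Z := Real.sqrt (1 + X ^ 2 + Y ^ 2)
  set r := Real.sqrt (1 + y' ^ 2)
  -- (s + Y y')² ≤ (Z r)²
  have : s + Y * y' ≤ Z * r := by
    refine le_trans (le_abs_self _) (abs_le_of_sq_le_sq ?_ (by positivity))
    have e : (Z * r) ^ 2 = (1 + X ^ 2 + Y ^ 2) * (1 + y' ^ 2) := by rw [mul_pow, h2, h3]
    rw [e]
    nlinarith [sq_nonneg (s * y' - Y)]
  linarith

lemma nn_tI (t : ℝ) : nn ((t : ℂ) * Complex.I) = t ^ 2 := by unfold nn; simp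
lemma nn_t (t : ℝ) : nn (t : ℂ) = t ^ 2 := by unfold nn; simp

lemma pt_tI (t : ℝ) : pt ((t : ℂ) * Complex.I) = (0, 2 * t / (1 - t ^ 2)) := by
  unfold pt; rw [nn_tI]; simp

lemma pt_t (t : ℝ) : pt (t : ℂ) = (2 * t / (1 - t ^ 2), 0) := by
  unfold pt; rw [nn_t]; simp

lemma abs_lt_sq {t : ℝ} (ht : |t| < 1) : t ^ 2 < 1 := by
  rw [← sq_abs]; have := abs_nonneg t; nlinarith

lemma exists_t (y : ℝ) : ∃ t : ℝ, |t| < 1 ∧ 2 * t / (1 - t ^ 2) = y := by
  have h := pt_dk (0, y)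
  have h2 := nn_dk_lt (0, y)
  have e : dk (0, y) = ((y / (1 + ZZ (0, y)) : ℝ) : ℂ) * Complex.I := by
    unfold dk
    apply Complex.ext
    · rw [Complex.re_ofReal_mul]; simp
    · rw [Complex.im_ofReal_mul]; simp
  rw [e] at h h2
  rw [pt_tI] at h
  rw [nn_tI] at h2
  refine ⟨_, ?_, (Prod.mk.inj h).2⟩
  rw [← sq_abs] at h2
  have := abs_nonneg (y / (1 + ZZ (0, y)))
  nlinarith

lemma distIm_eq {z : ℂ} (hz : nn z < 1) : distIm z = Real.arsinh |(pt z).1| := by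
  unfold distIm
  set X := (pt z).1 with hX
  set Y := (pt z).2 with hY
  have hZ : ZZ (pt z) = Real.sqrt (1 + X ^ 2 + Y ^ 2) := rfl
  have hs : 0 < Real.sqrt (1 + X ^ 2) := Real.sqrt_pos.mpr (by positivity)
  have hs2 : Real.sqrt (1 + X ^ 2) ^ 2 = 1 + X ^ 2 := Real.sq_sqrt (by positivity)
  have hs1 : 1 ≤ Real.sqrt (1 + X ^ 2) := by nlinarith [sq_nonneg X]
  have hval : ∀ t : ℝ, |t| < 1 → hdist z ((t : ℂ) * Complex.I) =
      Real.arcosh (Real.sqrt (1 + X ^ 2 + Y ^ 2) * Real.sqrt (1 + (2 * t / (1 - t ^ 2)) ^ 2) -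
        Y * (2 * t / (1 - t ^ 2))) := by
    intro t ht
    rw [hdist_eq hz (by rw [nn_tI]; exact abs_lt_sq ht), pt_tI, hZ]
    congr 1
    unfold ZZ
    rw [← hY]
    simp
  apply sInf_aux
  · rintro d ⟨t, ht, rfl⟩
    rw [hval t ht, ← arsinh_abs]
    have := key_ineq X Y (2 * t / (1 - t ^ 2))
    rw [Real.arcosh_le_arcosh hs (by linarith)]
    exact this
  · obtain ⟨t, ht, ht2⟩ := exists_t (Y / Real.sqrt (1 + X ^ 2))
    refine ⟨t, ht, ?_⟩
    rw [hval t ht, ← arsinh_abs, ht2]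
    congr 1
    have e : Real.sqrt (1 + (Y / Real.sqrt (1 + X ^ 2)) ^ 2) =
        Real.sqrt (1 + X ^ 2 + Y ^ 2) / Real.sqrt (1 + X ^ 2) := by
      rw [← Real.sqrt_div (by positivity)]
      congr 1
      rw [div_pow, hs2]
      field_simp
    rw [e]
    have h3 : Real.sqrt (1 + X ^ 2 + Y ^ 2) ^ 2 = 1 + X ^ 2 + Y ^ 2 := Real.sq_sqrt (by positivity)
    field_simp
    rw [h3, hs2]; ring

lemma distRe_eq {z : ℂ} (hz : nn z < 1) : distRe z = Real.arsinh |(pt z).2| := by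
  unfold distRe
  set X := (pt z).1 with hX
  set Y := (pt z).2 with hY
  have hZ : ZZ (pt z) = Real.sqrt (1 + Y ^ 2 + X ^ 2) := by
    unfold ZZ; rw [← hX, ← hY]; congr 1; ring
  have hs : 0 < Real.sqrt (1 + Y ^ 2) := Real.sqrt_pos.mpr (by positivity)
  have hs2 : Real.sqrt (1 + Y ^ 2) ^ 2 = 1 + Y ^ 2 := Real.sq_sqrt (by positivity)
  have hs1 : 1 ≤ Real.sqrt (1 + Y ^ 2) := by nlinarith [sq_nonneg Y]
  have hval : ∀ t : ℝ, |t| < 1 → hdist z (t : ℂ) =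
      Real.arcosh (Real.sqrt (1 + Y ^ 2 + X ^ 2) * Real.sqrt (1 + (2 * t / (1 - t ^ 2)) ^ 2) -
        X * (2 * t / (1 - t ^ 2))) := by
    intro t ht
    rw [hdist_eq hz (by rw [nn_t]; exact abs_lt_sq ht), pt_t, hZ]
    congr 1
    unfold ZZ
    rw [← hX]
    simp
  apply sInf_aux
  · rintro d ⟨t, ht, rfl⟩
    rw [hval t ht, ← arsinh_abs]
    have := key_ineq Y X (2 * t / (1 - t ^ 2))
    rw [Real.arcosh_le_arcosh hs (by linarith)]
    exact this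
  · obtain ⟨t, ht, ht2⟩ := exists_t (X / Real.sqrt (1 + Y ^ 2))
    refine ⟨t, ht, ?_⟩
    rw [hval t ht, ← arsinh_abs, ht2]
    congr 1
    have e : Real.sqrt (1 + (X / Real.sqrt (1 + Y ^ 2)) ^ 2) =
        Real.sqrt (1 + Y ^ 2 + X ^ 2) / Real.sqrt (1 + Y ^ 2) := by
      rw [← Real.sqrt_div (by positivity)]
      congr 1
      rw [div_pow, hs2]
      field_simp
    rw [e]
    have h3 : Real.sqrt (1 + Y ^ 2 + X ^ 2) ^ 2 = 1 + Y ^ 2 + X ^ 2 := Real.sq_sqrt (by positivity)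
    field_simp
    rw [h3, hs2]; ring

/-- signed distance to the imaginary axis, negative when `Re z < 0` -/
def dl (z : ℂ) : ℝ := if z.re < 0 then - distIm z else distIm z

lemma pt_fst_neg {z : ℂ} (hz : nn z < 1) : (pt z).1 < 0 ↔ z.re < 0 := by
  have h1 : 0 < 1 - nn z := by linarith
  unfold pt; simp only
  rw [div_lt_iff₀ h1, zero_mul]
  constructor <;> intro h <;> linarith

lemma pt_snd_pos {z : ℂ} (hz : nn z < 1) : 0 < (pt z).2 ↔ 0 < z.im := by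
  have h1 : 0 < 1 - nn z := by linarith
  unfold pt; simp only
  rw [lt_div_iff₀ h1, zero_mul]
  constructor <;> intro h <;> linarith

lemma dl_eq {z : ℂ} (hz : nn z < 1) : dl z = Real.arsinh (pt z).1 := by
  unfold dl
  rw [distIm_eq hz]
  have := pt_fst_neg hz
  split_ifs with h
  · rw [abs_of_neg (this.mpr h), Real.arsinh_neg, neg_neg]
  · rw [abs_of_nonneg]
    rw [← this] at h
    linarith

/-- the map `τ_a` -/
def tau (a z : ℂ) : ℂ := (z + a) / ((starRingEnd ℂ) a * z + 1)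

lemma mX_eq (t : ℝ) (p : ℝ × ℝ) : mX t p = (p.1 * Real.cosh t + ZZ p * Real.sinh t, p.2) := by
  have hR : 0 < Real.sqrt (1 + p.2^2) := Real.sqrt_pos.mpr (by positivity)
  have hR2 : Real.sqrt (1 + p.2 ^ 2) ^ 2 = 1 + p.2 ^ 2 := Real.sq_sqrt (by positivity)
  have e : Real.sqrt (1 + p.2^2) * Real.sqrt (1 + (p.1 / Real.sqrt (1 + p.2^2)) ^ 2) = ZZ p := by
    unfold ZZ
    rw [← Real.sqrt_mul (by positivity)]
    congr 1
    rw [div_pow, hR2]
    field_simp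
    ring
  unfold mX
  rw [Real.sinh_add, Real.sinh_arsinh, Real.cosh_arsinh]
  ext
  · simp only
    rw [mul_add, ← mul_assoc, ← mul_assoc, mul_div_cancel₀ _ hR.ne', e]
  · rfl

lemma tau_den {a : ℝ} (ha : |a| < 1) {z : ℂ} (hz : nn z < 1) :
    0 < (a * z.re + 1) ^ 2 + (a * z.im) ^ 2 := by
  have h1 := abs_lt_sq ha
  by_contra h
  push Not at h
  have e1 : a * z.re + 1 = 0 := by nlinarith [sq_nonneg (a * z.re + 1), sq_nonneg (a * z.im)]
  have h2 : z.re ^ 2 ≤ nn z := by unfold nn; nlinarith [sq_nonneg z.im]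
  have h3 : (a * z.re) ^ 2 = 1 := by
    have : a * z.re = -1 := by linarith
    rw [this]; norm_num
  have h4 : a ^ 2 * z.re ^ 2 = 1 := by rw [← mul_pow]; exact h3
  nlinarith [sq_nonneg a, sq_nonneg z.re]

lemma tau_real {a : ℝ} {z : ℂ} :
    tau (a : ℂ) z = ⟨((z.re + a) * (a * z.re + 1) + z.im * (a * z.im)) /
      ((a * z.re + 1) ^ 2 + (a * z.im) ^ 2),
      (z.im * (a * z.re + 1) - (z.re + a) * (a * z.im)) /
      ((a * z.re + 1) ^ 2 + (a * z.im) ^ 2)⟩ := by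
  unfold tau
  rw [Complex.conj_ofReal]
  apply Complex.ext
  · rw [Complex.div_re]
    simp [Complex.normSq_apply]
    rw [← add_div]
    congr 1
    ring
  · rw [Complex.div_im]
    simp [Complex.normSq_apply]
    rw [← sub_div]
    congr 1
    ring

lemma nn_tau {a : ℝ} (ha : |a| < 1) {z : ℂ} (hz : nn z < 1) :
    1 - nn (tau (a : ℂ) z) = (1 - a ^ 2) * (1 - nn z) / ((a * z.re + 1) ^ 2 + (a * z.im) ^ 2) := by
  have h := tau_den ha hz
  rw [tau_real]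
  unfold nn
  simp only
  obtain ⟨D, hD⟩ : ∃ D, D = (a * z.re + 1) ^ 2 + (a * z.im) ^ 2 := ⟨_, rfl⟩
  rw [← hD] at h ⊢
  field_simp
  rw [hD]
  ring

lemma nn_tau_lt {a : ℝ} (ha : |a| < 1) {z : ℂ} (hz : nn z < 1) : nn (tau (a : ℂ) z) < 1 := by
  have h := tau_den ha hz
  have h1 := nn_tau ha hz
  have h2 := abs_lt_sq ha
  have : 0 < (1 - a ^ 2) * (1 - nn z) / ((a * z.re + 1) ^ 2 + (a * z.im) ^ 2) := by
    apply div_pos _ h
    apply mul_pos <;> linarith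
  linarith

lemma tanh_abs_lt (t : ℝ) : |Real.tanh t| < 1 := by
  rw [abs_lt]; exact ⟨Real.neg_one_lt_tanh t, Real.tanh_lt_one t⟩

lemma pt_tau (t : ℝ) {z : ℂ} (hz : nn z < 1) :
    pt (tau ((Real.tanh (t / 2) : ℝ) : ℂ) z) = mX t (pt z) := by
  have ha := tanh_abs_lt (t / 2)
  have hden := tau_den ha hz
  have hn := nn_tau ha hz
  rw [mX_eq, ZZ_pt hz]
  have hc : 0 < Real.cosh (t/2) := Real.cosh_pos _
  have hcs := Real.cosh_sq_sub_sinh_sq (t/2)
  have ht : Real.cosh t = Real.cosh (t/2) ^ 2 + Real.sinh (t/2) ^ 2 := by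
    conv_lhs => rw [show t = 2 * (t/2) by ring]
    rw [Real.cosh_two_mul]
  have ht' : Real.sinh t = 2 * Real.sinh (t/2) * Real.cosh (t/2) := by
    conv_lhs => rw [show t = 2 * (t/2) by ring]
    rw [Real.sinh_two_mul]
  have hth : Real.tanh (t/2) = Real.sinh (t/2) / Real.cosh (t/2) := Real.tanh_eq_sinh_div_cosh _
  rw [ht, ht']
  generalize Real.tanh (t/2) = a at *
  generalize Real.cosh (t/2) = C at *
  generalize Real.sinh (t/2) = S at *
  have hS : S = a * C := by rw [hth]; field_simp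
  have h1 : 0 < 1 - nn z := by linarith
  have h2 : 0 < 1 - a ^ 2 := by have := abs_lt_sq ha; linarith
  have hC2 : C ^ 2 = 1 / (1 - a ^ 2) := by
    rw [hS] at hcs; field_simp; nlinarith
  subst hS
  unfold pt
  rw [hn, tau_real]
  have hnn : nn z = z.re ^ 2 + z.im ^ 2 := rfl
  obtain ⟨D, hD⟩ : ∃ D, D = (a * z.re + 1) ^ 2 + (a * z.im) ^ 2 := ⟨_, rfl⟩
  rw [← hD] at hden ⊢
  ext
  · simp only
    have e : C ^ 2 + (a * C) ^ 2 = C ^ 2 * (1 + a ^ 2) := by ring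
    have e' : 2 * (a * C) * C = C ^ 2 * (2 * a) := by ring
    rw [e, e', hC2]
    field_simp
    rw [hnn]; ring
  · simp only
    field_simp
    ring

/-- the reflection `σ(z) = i conj z` -/
def sg' (z : ℂ) : ℂ := Complex.I * (starRingEnd ℂ) z

lemma sg_eq (z : ℂ) : sg' z = ⟨z.im, z.re⟩ := by
  unfold sg'; apply Complex.ext <;> simp

lemma nn_sg (z : ℂ) : nn (sg' z) = nn z := by rw [sg_eq]; unfold nn; simp only; ring

lemma pt_sg (z : ℂ) : pt (sg' z) = (pt z).swap := by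
  unfold pt; rw [nn_sg, sg_eq]; rfl

lemma sg_sg (z : ℂ) : sg' (sg' z) = z := by rw [sg_eq, sg_eq]

end

end Pool.Agent.Q131.Disk
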