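import Pool.Agent.Q131.Model

/-!
The three-interval exchange by boosts on the quadrangle `[-c,c) × [-c,c)` in hyperboloid
coordinates, and the group generated by it and its mirror image.
-/

namespace Pool.Agent.Q131.Exch

open Pool.Agent.Q131.PP Pool.Agent.Q131.Model Matrix

noncomputable section

/-- the half-open quadrangle -/
def Q (c : ℝ) : Set (ℝ × ℝ) := {p | -c ≤ p.1 ∧ p.1 < c ∧ -c ≤ p.2 ∧ p.2 < c}

/-- half width of a level -/
def hw (c y : ℝ) : ℝ := Real.arsinh (c / Real.sqrt (1 + y ^ 2))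

/-- the arc length parameter of a point on its level -/
def sX (p : ℝ × ℝ) : ℝ := Real.arsinh (p.1 / Real.sqrt (1 + p.2 ^ 2))

lemma sqrt_pos' (y : ℝ) : 0 < Real.sqrt (1 + y ^ 2) := Real.sqrt_pos.mpr (by positivity)

lemma sX_mX (t : ℝ) (p : ℝ × ℝ) : sX (mX t p) = sX p + t := by
  have := sqrt_pos' p.2
  unfold sX mX
  simp only
  rw [mul_div_cancel_left₀ _ this.ne', Real.arsinh_sinh]

lemma mX_snd (t : ℝ) (p : ℝ × ℝ) : (mX t p).2 = p.2 := rfl

lemma mem_Q_iff {c : ℝ} {p : ℝ × ℝ} : p ∈ Q c ↔ -hw c p.2 ≤ sX p ∧ sX p < hw c p.2 ∧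
    -c ≤ p.2 ∧ p.2 < c := by
  have h := sqrt_pos' p.2
  unfold Q hw sX
  simp only [Set.mem_ofPred_eq]
  rw [← Real.arsinh_neg, Real.arsinh_le_arsinh, Real.arsinh_lt_arsinh, ← neg_div,
    div_le_div_iff_of_pos_right h, div_lt_div_iff_of_pos_right h]

lemma ext_sX {p q : ℝ × ℝ} (h1 : sX p = sX q) (h2 : p.2 = q.2) : p = q := by
  have h := sqrt_pos' p.2
  unfold sX at h1
  rw [Real.arsinh_inj, ← h2] at h1
  ext
  · field_simp at h1; exact h1
  · exact h2

lemma mX_mX (s t : ℝ) (p : ℝ × ℝ) : mX s (mX t p) = mX (t + s) p := by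
  apply ext_sX
  · rw [sX_mX, sX_mX, sX_mX]; ring
  · rfl

lemma mX_zero (p : ℝ × ℝ) : mX 0 p = p := by
  apply ext_sX
  · rw [sX_mX]; ring
  · rfl

/-- Legal parameters. -/
structure Legal (c u v : ℝ) : Prop where
  hc : 0 < c
  hu : 0 < u
  hv : 0 < v
  hu2 : ∀ y, -c ≤ y → y < c → u ≤ 2 * hw c y
  hv2 : ∀ y, -c ≤ y → y < c → v ≤ 2 * hw c y
  huv : ∀ y, -c ≤ y → y < c → 2 * hw c y ≤ u + v

/-- combined amount -/
def am (u v : ℝ) (a : ℤ × ℤ) : ℝ := a.1 * v + a.2 * u

/-- index of the displacement of the exchange -/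
def dsp (c u v : ℝ) (p : ℝ × ℝ) : ℤ × ℤ :=
  if sX p + v < hw c p.2 then (1, 0) else if -hw c p.2 ≤ sX p - u then (0, -1) else (1, -1)

/-- index of the displacement of the inverse exchange -/
def dspI (c u v : ℝ) (p : ℝ × ℝ) : ℤ × ℤ :=
  if -hw c p.2 ≤ sX p - v then (-1, 0) else if sX p + u < hw c p.2 then (0, 1) else (-1, 1)

/-- the exchange -/
def ph (c u v : ℝ) (p : ℝ × ℝ) : ℝ × ℝ := mX (am u v (dsp c u v p)) p
/-- the inverse exchange -/
def phI (c u v : ℝ) (p : ℝ × ℝ) : ℝ × ℝ := mX (am u v (dspI c u v p)) p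

variable {c u v : ℝ}

lemma ph_mem (h : Legal c u v) {p : ℝ × ℝ} (hp : p ∈ Q c) : ph c u v p ∈ Q c := by
  rw [mem_Q_iff] at hp ⊢
  obtain ⟨h1, h2, h3, h4⟩ := hp
  have a := h.hu; have b := h.hv
  have a1 := h.hu2 p.2 h3 h4; have a2 := h.hv2 p.2 h3 h4; have a3 := h.huv p.2 h3 h4
  unfold ph dsp am
  rw [sX_mX, mX_snd]
  split_ifs with c1 c2 <;> simp only [Int.cast_one, Int.cast_zero, Int.cast_neg] <;>
    refine ⟨?_, ?_, h3, h4⟩ <;> linarith

lemma phI_mem (h : Legal c u v) {p : ℝ × ℝ} (hp : p ∈ Q c) : phI c u v p ∈ Q c := by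
  rw [mem_Q_iff] at hp ⊢
  obtain ⟨h1, h2, h3, h4⟩ := hp
  have a := h.hu; have b := h.hv
  have a1 := h.hu2 p.2 h3 h4; have a2 := h.hv2 p.2 h3 h4; have a3 := h.huv p.2 h3 h4
  unfold phI dspI am
  rw [sX_mX, mX_snd]
  split_ifs with c1 c2 <;> simp only [Int.cast_one, Int.cast_zero, Int.cast_neg] <;>
    refine ⟨?_, ?_, h3, h4⟩ <;> linarith

lemma phI_ph (h : Legal c u v) {p : ℝ × ℝ} (hp : p ∈ Q c) : phI c u v (ph c u v p) = p := by
  have hp' := ph_mem h hp
  rw [mem_Q_iff] at hp hp'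
  obtain ⟨h1, h2, h3, h4⟩ := hp
  obtain ⟨g1, g2, g3, g4⟩ := hp'
  have a := h.hu; have b := h.hv
  have a1 := h.hu2 p.2 h3 h4; have a2 := h.hv2 p.2 h3 h4; have a3 := h.huv p.2 h3 h4
  unfold phI
  have e : dspI c u v (ph c u v p) = - dsp c u v p := by
    unfold dspI ph
    rw [sX_mX, mX_snd]
    unfold dsp am
    split_ifs with c1 c2 c3 c4 c5 c6 c7 c8 <;>
      simp only [Int.cast_one, Int.cast_zero, Int.cast_neg] at * <;>
      first
      | rfl
      | (exfalso; linarith)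
  rw [e]
  unfold ph
  rw [mX_mX]
  have : am u v (dsp c u v p) + am u v (-dsp c u v p) = 0 := by
    unfold am; simp; ring
  rw [this, mX_zero]

lemma ph_phI (h : Legal c u v) {p : ℝ × ℝ} (hp : p ∈ Q c) : ph c u v (phI c u v p) = p := by
  have hp' := phI_mem h hp
  rw [mem_Q_iff] at hp hp'
  obtain ⟨h1, h2, h3, h4⟩ := hp
  obtain ⟨g1, g2, g3, g4⟩ := hp'
  have a := h.hu; have b := h.hv
  have a1 := h.hu2 p.2 h3 h4; have a2 := h.hv2 p.2 h3 h4; have a3 := h.huv p.2 h3 h4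
  unfold ph
  have e : dsp c u v (phI c u v p) = - dspI c u v p := by
    unfold dsp phI
    rw [sX_mX, mX_snd]
    unfold dspI am
    split_ifs with c1 c2 c3 c4 c5 c6 c7 c8 <;>
      simp only [Int.cast_one, Int.cast_zero, Int.cast_neg] at * <;>
      first
      | rfl
      | (exfalso; linarith)
  rw [e]
  unfold phI
  rw [mX_mX]
  have : am u v (dspI c u v p) + am u v (-dspI c u v p) = 0 := by
    unfold am; simp; ring
  rw [this, mX_zero]

lemma swap_mem {p : ℝ × ℝ} (hp : p ∈ Q c) : p.swap ∈ Q c := by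
  obtain ⟨h1, h2, h3, h4⟩ := hp
  exact ⟨h3, h4, h1, h2⟩

/-- the exchange as a permutation of the quadrangle -/
def phP (h : Legal c u v) : Equiv.Perm (Q c) where
  toFun p := ⟨ph c u v p.1, ph_mem h p.2⟩
  invFun p := ⟨phI c u v p.1, phI_mem h p.2⟩
  left_inv p := Subtype.ext (phI_ph h p.2)
  right_inv p := Subtype.ext (ph_phI h p.2)

/-- the swap of coordinates as a permutation of the quadrangle -/
def swP (c : ℝ) : Equiv.Perm (Q c) where
  toFun p := ⟨p.1.swap, swap_mem p.2⟩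
  invFun p := ⟨p.1.swap, swap_mem p.2⟩
  left_inv p := Subtype.ext (by simp)
  right_inv p := Subtype.ext (by simp)

/-- the mirror exchange -/
def psP (h : Legal c u v) : Equiv.Perm (Q c) := swP c * phP h * swP c

/-- generators indexed by `Bool` : `true` is `φ`, `false` is `ψ` -/
def gen (h : Legal c u v) : Bool → Equiv.Perm (Q c)
  | true => phP h
  | false => psP h

/-- boosts indexed by `Bool` -/
def bT : Bool → ℝ → SpecialLinearGroup (Fin 2) ℝ
  | true => bX
  | false => bY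

lemma bT_add (T : Bool) (s t : ℝ) : bT T (s + t) = bT T s * bT T t := by
  cases T
  · exact bY_add s t
  · exact bX_add s t

lemma altP_cons (T : Bool) (s : ℝ) (L : List ℝ) : altP T (s :: L) = bT T s * altP (!T) L := by
  cases T <;> rfl

lemma am_add (u v : ℝ) (a b : ℤ × ℤ) : am u v (a + b) = am u v a + am u v b := by
  unfold am; simp; ring

/-- sign condition on an index -/
def sg : Bool → ℤ × ℤ → Prop
  | true, a => 0 ≤ a.1 ∧ a.2 ≤ 0 ∧ a ≠ 0
  | false, a => a.1 ≤ 0 ∧ 0 ≤ a.2 ∧ a ≠ 0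

/-- size condition on an index -/
def sz (n : ℕ) (a : ℤ × ℤ) : Prop := |a.1| ≤ n ∧ |a.2| ≤ n

lemma sg_add {e : Bool} {a b : ℤ × ℤ} (ha : sg e a) (hb : sg e b) : sg e (a + b) := by
  cases e
  · obtain ⟨h1, h2, h3⟩ := ha
    obtain ⟨g1, g2, g3⟩ := hb
    refine ⟨by simp; omega, by simp; omega, ?_⟩
    intro h
    apply h3
    have e1 := congrArg Prod.fst h
    have e2 := congrArg Prod.snd h
    simp at e1 e2
    ext <;> simp <;> omega
  · obtain ⟨h1, h2, h3⟩ := ha
    obtain ⟨g1, g2, g3⟩ := hb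
    refine ⟨by simp; omega, by simp; omega, ?_⟩
    intro h
    apply h3
    have e1 := congrArg Prod.fst h
    have e2 := congrArg Prod.snd h
    simp at e1 e2
    ext <;> simp <;> omega

lemma sz_add {m n : ℕ} {a b : ℤ × ℤ} (ha : sz m a) (hb : sz n b) : sz (m + n) (a + b) := by
  obtain ⟨h1, h2⟩ := ha
  obtain ⟨g1, g2⟩ := hb
  constructor
  · have := abs_add_le a.1 b.1
    simp; linarith
  · have := abs_add_le a.2 b.2
    simp; linarith

lemma sz_mono {m n : ℕ} (h : m ≤ n) {a : ℤ × ℤ} (ha : sz m a) : sz n a := by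
  obtain ⟨h1, h2⟩ := ha
  have : (m : ℤ) ≤ n := by exact_mod_cast h
  exact ⟨by linarith, by linarith⟩

/-- the permutation of a signed letter -/
def let' (h : Legal c u v) (x : Bool × Bool) : Equiv.Perm (Q c) :=
  if x.2 then gen h x.1 else (gen h x.1)⁻¹

lemma let_spec (h : Legal c u v) (x : Bool × Bool) (p : Q c) :
    ∃ a : ℤ × ℤ, sg x.2 a ∧ sz 1 a ∧
      ((let' h x p : Q c) : ℝ × ℝ) = gact (bT x.1 (am u v a)) p := by
  obtain ⟨T, e⟩ := x
  have k1 : ∀ p, sg true (dsp c u v p) ∧ sz 1 (dsp c u v p) := by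
    intro p
    unfold dsp
    split_ifs <;> exact ⟨⟨by decide, by decide, by decide⟩, ⟨by decide, by decide⟩⟩
  have k2 : ∀ p, sg false (dspI c u v p) ∧ sz 1 (dspI c u v p) := by
    intro p
    unfold dspI
    split_ifs <;> exact ⟨⟨by decide, by decide, by decide⟩, ⟨by decide, by decide⟩⟩
  cases T <;> cases e
  · -- ψ⁻¹
    refine ⟨dspI c u v p.1.swap, (k2 _).1, (k2 _).2, ?_⟩
    change ((psP h)⁻¹ p : Q c).1 = gact (bY _) p.1
    rw [gact_bY]
    have : (psP h)⁻¹ = swP c * (phP h)⁻¹ * swP c := by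
      unfold psP
      rw [_root_.mul_inv_rev, _root_.mul_inv_rev]
      have : (swP c)⁻¹ = swP c := rfl
      rw [this, mul_assoc]
    rw [this]
    rfl
  · -- ψ
    refine ⟨dsp c u v p.1.swap, (k1 _).1, (k1 _).2, ?_⟩
    change (psP h p : Q c).1 = gact (bY _) p.1
    rw [gact_bY]
    rfl
  · refine ⟨dspI c u v p.1, (k2 _).1, (k2 _).2, ?_⟩
    change ((phP h)⁻¹ p : Q c).1 = gact (bX _) p.1
    rw [gact_bX]
    rfl
  · refine ⟨dsp c u v p.1, (k1 _).1, (k1 _).2, ?_⟩
    change (phP h p : Q c).1 = gact (bX _) p.1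
    rw [gact_bX]
    rfl

/-- the word lemma -/
lemma word_spec (h : Legal c u v) (x : Bool × Bool) (L : List (Bool × Bool))
    (hred : FreeGroup.IsReduced (x :: L)) (p : Q c) :
    ∃ (a : ℤ × ℤ) (I : List (ℤ × ℤ)), sg x.2 a ∧ sz (L.length + 1) a ∧
      (∀ b ∈ I, b ≠ 0 ∧ sz (L.length + 1) b) ∧ I.length ≤ L.length ∧
      ((((x :: L).map (let' h)).prod p : Q c) : ℝ × ℝ) =
        gact (altP x.1 ((a :: I).map (am u v))) p := by
  induction L generalizing x with
  | nil =>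
    obtain ⟨a, h1, h2, h3⟩ := let_spec h x p
    refine ⟨a, [], h1, h2, by simp, by simp, ?_⟩
    simp only [List.map_cons, List.map_nil, List.prod_cons, List.prod_nil, mul_one]
    rw [h3, altP_cons]
    have : altP (!x.1) [] = 1 := by cases x.1 <;> rfl
    rw [this, mul_one]
  | cons y L ih =>
    rw [FreeGroup.isReduced_cons_cons] at hred
    obtain ⟨hxy, hred'⟩ := hred
    obtain ⟨a, I, i1, i2, i3, i4, i5⟩ := ih y hred'
    set p' : Q c := ((y :: L).map (let' h)).prod p with hp'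
    obtain ⟨d, d1, d2, d3⟩ := let_spec h x p'
    have e0 : ((((x :: y :: L).map (let' h)).prod p : Q c) : ℝ × ℝ) =
        gact (bT x.1 (am u v d) * altP y.1 ((a :: I).map (am u v))) p := by
      rw [List.map_cons, List.prod_cons, Equiv.Perm.mul_apply, gact_mul, ← i5, ← d3]
    by_cases hT : x.1 = y.1
    · have hs := hxy hT
      refine ⟨d + a, I, ?_, ?_, ?_, ?_, ?_⟩
      · rw [← hs] at i1
        exact sg_add d1 i1
      · have := sz_add d2 i2
        rw [List.length_cons]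
        rwa [add_comm 1] at this
      · intro b hb
        refine ⟨(i3 b hb).1, sz_mono (by simp) (i3 b hb).2⟩
      · rw [List.length_cons]; omega
      · rw [e0, hT, List.map_cons, List.map_cons, altP_cons, altP_cons, am_add, bT_add, mul_assoc]
    · have hT' : y.1 = !x.1 := by
        revert hT; cases x.1 <;> cases y.1 <;> simp
      refine ⟨d, a :: I, d1, sz_mono (by simp) d2, ?_, ?_, ?_⟩
      · intro b hb
        rcases List.mem_cons.mp hb with hb | hb
        · subst hb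
          refine ⟨?_, sz_mono (by simp) i2⟩
          revert i1
          cases y.2
          · exact fun i1 => i1.2.2
          · exact fun i1 => i1.2.2
        · exact ⟨(i3 b hb).1, sz_mono (by simp) (i3 b hb).2⟩
      · simp only [List.length_cons]; omega
      · rw [e0, hT']; rw [List.map_cons (l := a :: I), altP_cons x.1]

/-- genericity of the parameters -/
def Generic (u v : ℝ) : Prop := ∀ (T : Bool) (I : List (ℤ × ℤ)), I ≠ [] → (∀ a ∈ I, a ≠ 0) →
  ¬ (altP T (I.map (am u v)) = 1 ∨ altP T (I.map (am u v)) = -1)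

lemma finite_idx (n : ℕ) :
    {I : List (ℤ × ℤ) | I.length ≤ n ∧ ∀ b ∈ I, sz n b}.Finite := by
  have hf : Finite {b : ℤ × ℤ // sz n b} := by
    have : {b : ℤ × ℤ | sz n b} ⊆ (Set.Icc (-(n:ℤ)) n) ×ˢ (Set.Icc (-(n:ℤ)) n) := by
      rintro b ⟨h1, h2⟩
      rw [abs_le] at h1 h2
      exact ⟨⟨h1.1, h1.2⟩, ⟨h2.1, h2.2⟩⟩
    exact ((Set.finite_Icc _ _).prod (Set.finite_Icc _ _)).subset this |>.to_subtype
  have h1 := (List.finite_length_le {b : ℤ × ℤ // sz n b} n).image (List.map Subtype.val)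
  apply h1.subset
  rintro I ⟨hI, hb⟩
  refine ⟨I.attach.map (fun b => ⟨b.1, hb b.1 b.2⟩), by simpa using hI, ?_⟩
  rw [List.map_map]
  exact List.attach_map_subtype_val I

lemma lift_eq (h : Legal c u v) (w : FreeGroup Bool) :
    FreeGroup.lift (gen h) w = (w.toWord.map (let' h)).prod := by
  conv_lhs => rw [← FreeGroup.mk_toWord (x := w)]
  rw [FreeGroup.lift_mk]
  congr 1
  apply List.map_congr_left
  intro x _
  unfold let'
  cases x.2 <;> simp

theorem finite_fix (h : Legal c u v) (hg : Generic u v) (w : FreeGroup Bool) (hw : w ≠ 1) :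
    {p : Q c | FreeGroup.lift (gen h) w p = p}.Finite := by
  have hw' : w.toWord ≠ [] := by rwa [Ne, FreeGroup.toWord_eq_nil_iff]
  obtain ⟨x, L, hL⟩ := List.exists_cons_of_ne_nil hw'
  have hred : FreeGroup.IsReduced (x :: L) := by rw [← hL]; exact FreeGroup.isReduced_toWord
  have hfin := finite_idx (L.length + 1)
  have hfin2 : (⋃ I ∈ {I : List (ℤ × ℤ) | I.length ≤ L.length + 1 ∧ ∀ b ∈ I, sz (L.length + 1) b},
      {p : ℝ × ℝ | I ≠ [] ∧ (∀ a ∈ I, a ≠ 0) ∧ gact (altP x.1 (I.map (am u v))) p = p}).Finite := by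
    apply hfin.biUnion
    intro I _
    by_cases hI : I ≠ [] ∧ ∀ a ∈ I, a ≠ 0
    · apply (fix_finite _ (hg x.1 I hI.1 hI.2)).subset
      rintro p ⟨_, _, hp⟩
      exact hp
    · apply Set.Finite.subset Set.finite_empty
      rintro p ⟨h1, h2, _⟩
      exact absurd ⟨h1, h2⟩ hI
  apply Set.Finite.of_finite_image (f := Subtype.val) _ Subtype.val_injective.injOn
  apply hfin2.subset
  rintro _ ⟨p, hp, rfl⟩
  obtain ⟨a, I, i1, i2, i3, i4, i5⟩ := word_spec h x L hred p
  simp only [Set.mem_ofPred_eq] at hp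
  rw [lift_eq, hL] at hp
  rw [hp] at i5
  simp only [Set.mem_iUnion]
  refine ⟨a :: I, ⟨by simpa using i4, ?_⟩, by simp, ?_, i5.symm⟩
  · intro b hb
    rcases List.mem_cons.mp hb with hb | hb
    · subst hb; exact i2
    · exact (i3 b hb).2
  · intro b hb
    rcases List.mem_cons.mp hb with hb | hb
    · subst hb
      revert i1
      cases x.2
      · exact fun i1 => i1.2.2
      · exact fun i1 => i1.2.2
    · exact (i3 b hb).1

lemma Q_infinite (hc : 0 < c) : Infinite (Q c) := by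
  rw [Set.infinite_coe_iff]
  have : (fun t : ℝ => (t, (0:ℝ))) '' (Set.Ico 0 c) ⊆ Q c := by
    rintro _ ⟨t, ⟨h1, h2⟩, rfl⟩
    exact ⟨by simp; linarith, h2, by simp; linarith, hc⟩
  apply Set.Infinite.mono this
  apply Set.Infinite.image _ (Set.Ico_infinite hc)
  intro a _ b _ hab
  exact (Prod.mk.inj hab).1

theorem lift_injective (h : Legal c u v) (hg : Generic u v) :
    Function.Injective (FreeGroup.lift (gen h)) := by
  rw [injective_iff_map_eq_one]
  intro w hw
  by_contra hne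
  have hf := finite_fix h hg w hne
  rw [hw] at hf
  have := Q_infinite h.hc
  simp only [Equiv.Perm.coe_one, id_eq] at hf
  exact Set.infinite_univ (α := Q c) (by simpa using hf)

end

end Pool.Agent.Q131.Exch
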