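import Pool.Agent.Q131.PingPong

/-!
Hyperboloid coordinates `(X, Y)` on the hyperbolic plane, and boosts.
-/

namespace Pool.Agent.Q131.Model

open Pool.Agent.Q131.PP Matrix UpperHalfPlane

noncomputable section

/-- hyperboloid height -/
def ZZ (p : ℝ × ℝ) : ℝ := Real.sqrt (1 + p.1 ^ 2 + p.2 ^ 2)

lemma ZZ_sq (p : ℝ × ℝ) : ZZ p ^ 2 = 1 + p.1 ^ 2 + p.2 ^ 2 := Real.sq_sqrt (by positivity)
lemma ZZ_pos (p : ℝ × ℝ) : 0 < ZZ p := Real.sqrt_pos.mpr (by positivity)
lemma ZZ_gt (p : ℝ × ℝ) : 0 < ZZ p - p.1 := by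
  have h1 := ZZ_sq p
  have h2 := ZZ_pos p
  nlinarith [sq_nonneg p.2]

/-- the half plane point with hyperboloid coordinates `(X, Y)` -/
def toH (p : ℝ × ℝ) : ℍ :=
  ⟨⟨p.2 / (ZZ p - p.1), 1 / (ZZ p - p.1)⟩, by have := ZZ_gt p; exact one_div_pos.mpr this⟩

/-- hyperboloid coordinates of a half plane point -/
def fromH (z : ℍ) : ℝ × ℝ := ((z.re ^ 2 + z.im ^ 2 - 1) / (2 * z.im), z.re / z.im)

lemma toH_re (p : ℝ × ℝ) : (toH p).re = p.2 / (ZZ p - p.1) := rfl
lemma toH_im (p : ℝ × ℝ) : (toH p).im = 1 / (ZZ p - p.1) := rfl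

lemma fromH_toH (p : ℝ × ℝ) : fromH (toH p) = p := by
  have h1 := ZZ_sq p
  have h2 := ZZ_gt p
  unfold fromH
  rw [toH_re, toH_im]
  ext
  · simp only
    field_simp
    linear_combination -h1
  · simp only
    field_simp

lemma ZZ_fromH (z : ℍ) : ZZ (fromH z) = (z.re ^ 2 + z.im ^ 2 + 1) / (2 * z.im) := by
  have hz := z.im_pos
  unfold ZZ fromH
  rw [Real.sqrt_eq_iff_mul_self_eq (by positivity) (by positivity)]
  simp only
  field_simp
  ring

lemma toH_fromH (z : ℍ) : toH (fromH z) = z := by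
  have hz := z.im_pos
  have h : ZZ (fromH z) - (fromH z).1 = 1 / z.im := by
    rw [ZZ_fromH]; unfold fromH; simp only; field_simp; ring
  apply UpperHalfPlane.ext
  apply Complex.ext
  · change (toH (fromH z)).re = z.re
    rw [toH_re, h]; unfold fromH; simp only; field_simp
  · change (toH (fromH z)).im = z.im
    rw [toH_im, h]; field_simp

/-- the action of `SL(2,ℝ)` on coordinates -/
def gact (g : SpecialLinearGroup (Fin 2) ℝ) (p : ℝ × ℝ) : ℝ × ℝ := fromH (g • toH p)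

lemma toH_gact (g : SpecialLinearGroup (Fin 2) ℝ) (p : ℝ × ℝ) : toH (gact g p) = g • toH p := by
  unfold gact; rw [toH_fromH]

lemma gact_mul (g h : SpecialLinearGroup (Fin 2) ℝ) (p : ℝ × ℝ) :
    gact (g * h) p = gact g (gact h p) := by
  unfold gact; rw [toH_fromH, mul_smul]

lemma gact_one (p : ℝ × ℝ) : gact 1 p = p := by
  unfold gact; rw [one_smul, fromH_toH]

lemma gact_inv_gact (g : SpecialLinearGroup (Fin 2) ℝ) (p : ℝ × ℝ) :
    gact g⁻¹ (gact g p) = p := by
  rw [← gact_mul, inv_mul_cancel, gact_one]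

lemma bX_add (s t : ℝ) : bX (s + t) = bX s * bX t := by
  ext i j
  have e : (bX s * bX t).1 = (bX s).1 * (bX t).1 := rfl
  rw [e]
  fin_cases i <;> fin_cases j <;> simp [bX, ← Real.exp_add] <;> ring_nf

lemma bY_add (s t : ℝ) : bY (s + t) = bY s * bY t := by
  ext i j
  have e : (bY s * bY t).1 = (bY s).1 * (bY t).1 := rfl
  rw [e]
  have h : (s + t) / 2 = s / 2 + t / 2 := by ring
  fin_cases i <;> fin_cases j <;> simp [bY, h, Real.cosh_add, Real.sinh_add] <;> ring_nf

lemma bX_zero : bX 0 = 1 := by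
  ext i j
  fin_cases i <;> fin_cases j <;> simp [bX]

lemma bY_zero : bY 0 = 1 := by
  ext i j
  fin_cases i <;> fin_cases j <;> simp [bY]

lemma bX_neg (s : ℝ) : bX (-s) = (bX s)⁻¹ := by
  rw [eq_comm, inv_eq_iff_mul_eq_one, ← bX_add, add_neg_cancel, bX_zero]

lemma bY_neg (s : ℝ) : bY (-s) = (bY s)⁻¹ := by
  rw [eq_comm, inv_eq_iff_mul_eq_one, ← bY_add, add_neg_cancel, bY_zero]

/-- boost along the first axis in coordinates -/
def mX (t : ℝ) (p : ℝ × ℝ) : ℝ × ℝ :=
  (Real.sqrt (1 + p.2 ^ 2) * Real.sinh (Real.arsinh (p.1 / Real.sqrt (1 + p.2 ^ 2)) + t), p.2)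

/-- boost along the second axis in coordinates -/
def mY (t : ℝ) (p : ℝ × ℝ) : ℝ × ℝ := (mX t p.swap).swap

lemma ZZ_eq (y s : ℝ) : ZZ (Real.sqrt (1 + y ^ 2) * Real.sinh s, y) =
    Real.sqrt (1 + y ^ 2) * Real.cosh s := by
  have h : Real.sqrt (1 + y^2) ^ 2 = 1 + y^2 := Real.sq_sqrt (by positivity)
  unfold ZZ
  rw [Real.sqrt_eq_iff_mul_self_eq (by positivity) (by positivity)]
  simp only
  have := Real.cosh_sq_sub_sinh_sq s
  have : Real.cosh s ^ 2 = 1 + Real.sinh s ^ 2 := by linarith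
  symm
  calc Real.sqrt (1 + y^2) * Real.cosh s * (Real.sqrt (1 + y^2) * Real.cosh s)
      = Real.sqrt (1 + y^2) ^ 2 * Real.cosh s ^ 2 := by ring
    _ = (1 + y ^ 2) * (1 + Real.sinh s ^ 2) := by rw [h, this]
    _ = _ := by rw [mul_pow, h]; ring

lemma ZZ_swap (p : ℝ × ℝ) : ZZ p.swap = ZZ p := by
  unfold ZZ; simp only [Prod.fst_swap, Prod.snd_swap]; congr 1; ring

lemma coe_toH_X (y s : ℝ) : ((toH (Real.sqrt (1 + y ^ 2) * Real.sinh s, y) : ℍ) : ℂ) =
    ((Real.exp s / Real.sqrt (1 + y ^ 2) : ℝ) : ℂ) * ⟨y, 1⟩ := by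
  have hR : 0 < Real.sqrt (1 + y^2) := Real.sqrt_pos.mpr (by positivity)
  have h : ZZ (Real.sqrt (1 + y ^ 2) * Real.sinh s, y) - Real.sqrt (1 + y ^ 2) * Real.sinh s =
      Real.sqrt (1 + y ^ 2) * Real.exp (-s) := by
    rw [ZZ_eq, ← mul_sub, Real.cosh_sub_sinh]
  apply Complex.ext
  · change (toH _).re = _
    rw [toH_re, Complex.re_ofReal_mul]
    simp only
    rw [h, Real.exp_neg]
    field_simp
  · change (toH _).im = _
    rw [toH_im, Complex.im_ofReal_mul]
    simp only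
    rw [h, Real.exp_neg]
    field_simp

lemma self_eq_X (p : ℝ × ℝ) : p = (Real.sqrt (1 + p.2 ^ 2) *
    Real.sinh (Real.arsinh (p.1 / Real.sqrt (1 + p.2 ^ 2))), p.2) := by
  have hR : 0 < Real.sqrt (1 + p.2^2) := Real.sqrt_pos.mpr (by positivity)
  rw [Real.sinh_arsinh]
  ext
  · simp only; field_simp
  · rfl

lemma toH_mX (t : ℝ) (p : ℝ × ℝ) : toH (mX t p) = bX t • toH p := by
  apply UpperHalfPlane.ext
  rw [coe_specialLinearGroup_apply]
  conv_rhs => rw [self_eq_X p]
  unfold mX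
  rw [coe_toH_X, coe_toH_X]
  have e1 : (Real.exp (-t/2)) ≠ 0 := (Real.exp_pos _).ne'
  have e2 : Real.exp (Real.arsinh (p.1 / Real.sqrt (1 + p.2 ^ 2)) + t) =
    Real.exp (Real.arsinh (p.1 / Real.sqrt (1 + p.2 ^ 2))) * (Real.exp (t/2) / Real.exp (-t/2)) := by
    rw [← Real.exp_sub, ← Real.exp_add]; ring_nf
  simp only [bX, Matrix.of_apply, Matrix.cons_val', Matrix.cons_val_zero, Matrix.cons_val_one,
    Algebra.algebraMap_self, RingHom.id_apply, e2]
  have e3 : ((Real.exp (-t/2) : ℝ) : ℂ) ≠ 0 := by exact_mod_cast e1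
  push_cast
  push_cast at e3
  field_simp
  ring

lemma gact_bX (t : ℝ) (p : ℝ × ℝ) : gact (bX t) p = mX t p := by
  unfold gact; rw [← toH_mX, fromH_toH]

lemma coe_toH (p : ℝ × ℝ) : ((toH p : ℍ) : ℂ) = (p.2 + Complex.I) / ((ZZ p - p.1 : ℝ) : ℂ) := by
  have := ZZ_gt p
  apply Complex.ext
  · change (toH _).re = _
    rw [toH_re]
    rw [Complex.div_ofReal_re]; simp
  · change (toH _).im = _
    rw [toH_im]
    rw [Complex.div_ofReal_im]; simp

lemma den_ne (S C : ℝ) (h : C ^ 2 - S ^ 2 = 1) (w : ℂ) (hw : 0 < w.im) :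
    (S : ℂ) * w + (C : ℂ) ≠ 0 := by
  intro h0
  have h1 := congrArg Complex.im h0
  have h2 := congrArg Complex.re h0
  simp at h1 h2
  rcases h1 with h1 | h1
  · subst h1
    simp at h2
    subst h2
    norm_num at h
  · exact hw.ne' h1

lemma toH_mY (t : ℝ) (p : ℝ × ℝ) : toH (mY t p) = bY t • toH p := by
  apply UpperHalfPlane.ext
  rw [coe_specialLinearGroup_apply]
  obtain ⟨x, y⟩ := p
  -- write y = R sinh a
  set R := Real.sqrt (1 + x ^ 2) with hR
  have hRp : 0 < R := Real.sqrt_pos.mpr (by positivity)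
  have hR2 : R ^ 2 = 1 + x ^ 2 := Real.sq_sqrt (by positivity)
  set a := Real.arsinh (y / R) with ha
  have hy : y = R * Real.sinh a := by rw [ha, Real.sinh_arsinh]; field_simp
  have hm : mY t (x, y) = (x, R * Real.sinh (a + t)) := by
    unfold mY mX; simp only [Prod.swap_prod_mk]
    rfl
  have z1 : ZZ (x, R * Real.sinh (a + t)) = R * Real.cosh (a + t) := by
    rw [← ZZ_swap]; exact ZZ_eq x (a + t)
  have z2 : ZZ (x, y) = R * Real.cosh a := by
    rw [hy, ← ZZ_swap]; exact ZZ_eq x a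
  rw [hm, coe_toH, coe_toH, z1, z2]
  simp only
  have p1 : (0:ℝ) < R * Real.cosh (a + t) - x := by rw [← z1]; exact ZZ_gt (x, R * Real.sinh (a + t))
  have p2 : (0:ℝ) < R * Real.cosh a - x := by rw [← z2]; exact ZZ_gt (x, y)
  have q1 : ((R * Real.cosh (a + t) - x : ℝ) : ℂ) ≠ 0 := by exact_mod_cast p1.ne'
  have q2 : ((R * Real.cosh a - x : ℝ) : ℂ) ≠ 0 := by exact_mod_cast p2.ne'
  simp only [bY, Matrix.of_apply, Matrix.cons_val', Matrix.cons_val_zero, Matrix.cons_val_one,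
    Algebra.algebraMap_self, RingHom.id_apply, Matrix.cons_val_fin_one]
  have hden' : ((Real.sinh (t/2) : ℝ) : ℂ) * (((y:ℝ) + Complex.I) / ((R * Real.cosh a - x : ℝ) : ℂ))
      + ((Real.cosh (t/2) : ℝ) : ℂ) ≠ 0 := by
    apply den_ne _ _ (Real.cosh_sq_sub_sinh_sq (t/2))
    rw [Complex.div_ofReal_im]
    simp
    simpa using p2
  rw [eq_div_iff hden', div_mul_eq_mul_div, div_eq_iff q1]
  have hC := Real.cosh_sq_sub_sinh_sq (t/2)
  have hA := Real.cosh_sq_sub_sinh_sq a
  have ht : Real.sinh (a + t) = Real.sinh a * (Real.cosh (t/2) ^ 2 + Real.sinh (t/2) ^ 2) +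
      Real.cosh a * (2 * Real.sinh (t/2) * Real.cosh (t/2)) := by
    rw [Real.sinh_add]
    conv_lhs => rw [show t = 2 * (t/2) by ring]
    rw [Real.cosh_two_mul, Real.sinh_two_mul]
  have ht' : Real.cosh (a + t) = Real.cosh a * (Real.cosh (t/2) ^ 2 + Real.sinh (t/2) ^ 2) +
      Real.sinh a * (2 * Real.sinh (t/2) * Real.cosh (t/2)) := by
    rw [Real.cosh_add]
    conv_lhs => rw [show t = 2 * (t/2) by ring]
    rw [Real.cosh_two_mul, Real.sinh_two_mul]
  rw [ht, ht', hy]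
  generalize Real.sinh (t/2) = S at *
  generalize Real.cosh (t/2) = C at *
  generalize Real.sinh a = A at *
  generalize Real.cosh a = B at *
  have q2' : ((R:ℂ) * (B:ℂ) - (x:ℂ)) ≠ 0 := by
    have := q2; push_cast at this; exact this
  push_cast
  field_simp
  apply Complex.ext
  · simp [pow_two]
    linear_combination (S*(C^2-S^2)*(B^2-A^2)) * hR2 +
      (S*(1+x^2)*(B^2-A^2) - R*x*(A*C+S*B)) * hC + S*(1+x^2) * hA
  · simp [pow_two]
    linear_combination (-R*(A*S+C*B)) * hC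

lemma gact_bY (t : ℝ) (p : ℝ × ℝ) : gact (bY t) p = mY t p := by
  unfold gact; rw [← toH_mY, fromH_toH]

/-- An element of `SL(2,ℝ)` fixing two distinct points of the half plane is `±1`. -/
lemma fix_two (g : SpecialLinearGroup (Fin 2) ℝ) (z w : ℍ) (hz : g • z = z) (hw : g • w = w)
    (hne : z ≠ w) : g = 1 ∨ g = -1 := by
  have hdet : g 0 0 * g 1 1 - g 0 1 * g 1 0 = 1 := by
    have := g.2
    rwa [Matrix.det_fin_two] at this
  have key : ∀ z : ℍ, g • z = z → (2 * g 1 0 * z.re = g 0 0 - g 1 1) ∧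
      (g 1 0 * (z.re ^ 2 + z.im ^ 2) = - g 0 1) := by
    intro z hz
    have h : ((g • z : ℍ) : ℂ) = z := by rw [hz]
    rw [coe_specialLinearGroup_apply] at h
    have hd : (((g 1 0 : ℝ) : ℂ) * z + ((g 1 1 : ℝ) : ℂ)) ≠ 0 := by
      intro h0
      have h1 := congrArg Complex.im h0
      have h2 := congrArg Complex.re h0
      simp at h1 h2
      rcases h1 with h1 | h1
      · rw [h1] at h2
        simp at h2
        rw [h1, h2] at hdet
        simp at hdet
      · exact z.im_pos.ne' h1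
    simp only [Algebra.algebraMap_self, RingHom.id_apply] at h
    rw [div_eq_iff hd] at h
    have h1 := congrArg Complex.im h
    have h2 := congrArg Complex.re h
    simp at h1 h2
    have hy := z.im_pos
    have h3 : 2 * g 1 0 * z.re = g 0 0 - g 1 1 := by
      apply mul_right_cancel₀ hy.ne'
      linear_combination -h1
    refine ⟨h3, ?_⟩
    linear_combination h2 + z.re * h3
  obtain ⟨a1, a2⟩ := key z hz
  obtain ⟨b1, b2⟩ := key w hw
  have hzp := z.im_pos
  have hwp := w.im_pos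
  have hc : g 1 0 = 0 := by
    by_contra hc
    apply hne
    have e1 : z.re = w.re := by
      have : g 1 0 * z.re = g 1 0 * w.re := by linarith
      exact mul_left_cancel₀ hc this
    have e2 : z.im ^ 2 = w.im ^ 2 := by
      have : g 1 0 * (z.re ^ 2 + z.im ^ 2) = g 1 0 * (w.re ^ 2 + w.im ^ 2) := by linarith
      have := mul_left_cancel₀ hc this
      rw [e1] at this
      linarith
    have e3 : z.im = w.im := by nlinarith
    apply UpperHalfPlane.ext
    exact Complex.ext e1 e3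
  rw [hc] at a1 a2
  have hb : g 0 1 = 0 := by linarith
  have had : g 0 0 = g 1 1 := by linarith
  rw [hb, had] at hdet
  have h1 : (g 1 1 - 1) * (g 1 1 + 1) = 0 := by linear_combination hdet
  rcases mul_eq_zero.mp h1 with h | h
  · left
    have h' : g 1 1 = 1 := by linarith
    ext i j
    fin_cases i <;> fin_cases j
    · simpa [had] using h'
    · simpa using hb
    · simpa using hc
    · simpa using h'
  · right
    have h' : g 1 1 = -1 := by linarith
    ext i j
    fin_cases i <;> fin_cases j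
    · simpa [had] using h'
    · simpa using hb
    · simpa using hc
    · simpa using h'

/-- The fixed set in coordinates of an element different from `±1` is finite. -/
lemma fix_finite (g : SpecialLinearGroup (Fin 2) ℝ) (h : ¬ (g = 1 ∨ g = -1)) :
    {p : ℝ × ℝ | gact g p = p}.Finite := by
  apply Set.Subsingleton.finite
  intro p hp q hq
  by_contra hne
  apply h
  simp only [Set.mem_ofPred_eq] at hp hq
  apply fix_two g (toH p) (toH q)
  · rw [← toH_gact, hp]
  · rw [← toH_gact, hq]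
  · intro h0
    apply hne
    rw [← fromH_toH p, ← fromH_toH q, h0]

end

end Pool.Agent.Q131.Model
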