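import Pool.Agent.Q131.Exchange

/-!
Generic parameters for the two families used.
-/

namespace Pool.Agent.Q131.Params

open Pool.Agent.Q131.PP Pool.Agent.Q131.Model Pool.Agent.Q131.Exch Filter Topology

noncomputable section

lemma limCond_atTop {s : ℝ → ℝ} (h : Tendsto s atTop atTop) : LimCond s := by
  refine ⟨fun θ => Real.exp (-(s θ) / 2), fun θ => Real.exp_pos _, (1, 0),
    Or.inl ⟨by norm_num, by norm_num, by simp [sq_nonneg]⟩, ?_⟩
  have e : (fun θ => Real.exp (-(s θ) / 2) • ex (s θ)) = fun θ => ((1:ℝ), Real.exp (-(s θ))) := by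
    funext θ
    unfold ex
    ext
    · simp only [Prod.smul_fst, smul_eq_mul, ← Real.exp_add]
      ring_nf; simp
    · simp only [Prod.smul_snd, smul_eq_mul, ← Real.exp_add]
      ring_nf
  rw [e]
  refine tendsto_const_nhds.prodMk_nhds ?_
  exact Real.tendsto_exp_atBot.comp (tendsto_neg_atTop_atBot.comp h)

lemma limCond_atBot {s : ℝ → ℝ} (h : Tendsto s atTop atBot) : LimCond s := by
  refine ⟨fun θ => Real.exp ((s θ) / 2), fun θ => Real.exp_pos _, (0, 1),
    Or.inr ⟨by norm_num, by norm_num, by simp [sq_nonneg]⟩, ?_⟩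
  have e : (fun θ => Real.exp ((s θ) / 2) • ex (s θ)) = fun θ => (Real.exp (s θ), (1:ℝ)) := by
    funext θ
    unfold ex
    ext
    · simp only [Prod.smul_fst, smul_eq_mul, ← Real.exp_add]
      ring_nf
    · simp only [Prod.smul_snd, smul_eq_mul, ← Real.exp_add]
      ring_nf; simp
  rw [e]
  refine Tendsto.prodMk_nhds ?_ tendsto_const_nhds
  exact Real.tendsto_exp_atBot.comp h

lemma tt_exp : tt = Real.exp (-Real.arsinh 1) := by
  rw [Real.exp_neg, Real.exp_arsinh]
  have h1 : (1:ℝ) + 1 ^ 2 = 2 := by norm_num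
  rw [h1]
  have := sqrt2_sq
  have := sqrt2_gt
  unfold tt
  field_simp
  nlinarith

lemma limCond_of_tendsto {s : ℝ → ℝ} {l : ℝ} (h : Tendsto s atTop (𝓝 l))
    (hl : 2 * Real.arsinh 1 ≤ |l|) : LimCond s := by
  have hpos : 0 < Real.arsinh 1 := Real.arsinh_pos_iff.mpr one_pos
  have htt : tt ^ 2 = Real.exp (-(2 * Real.arsinh 1)) := by
    rw [tt_exp, ← Real.exp_nat_mul]; congr 1; push_cast; ring
  refine ⟨fun _ => 1, fun _ => one_pos, ex l, ?_, ?_⟩
  · rcases le_total 0 l with h0 | h0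
    · left
      rw [abs_of_nonneg h0] at hl
      refine ⟨Real.exp_pos _, (Real.exp_pos _).le, ?_⟩
      simp only [ex]
      rw [htt, ← Real.exp_add, Real.exp_le_exp]
      linarith
    · right
      rw [abs_of_nonpos h0] at hl
      refine ⟨Real.exp_pos _, (Real.exp_pos _).le, ?_⟩
      simp only [ex]
      rw [htt, ← Real.exp_add, Real.exp_le_exp]
      linarith
  · simp only [one_smul]
    unfold ex
    refine Tendsto.prodMk_nhds ?_ ?_
    · exact (Real.continuous_exp.tendsto _).comp (h.div_const 2)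
    · exact (Real.continuous_exp.tendsto _).comp (h.neg.div_const 2)

lemma generic_countable (u v : ℝ → ℝ) (hu : ∀ θ, AnalyticAt ℝ u θ) (hv : ∀ θ, AnalyticAt ℝ v θ)
    (hlim : ∀ a : ℤ × ℤ, a ≠ 0 → LimCond (amt u v a)) :
    {θ | ¬ Generic (u θ) (v θ)}.Countable := by
  have : {θ | ¬ Generic (u θ) (v θ)} ⊆ ⋃ (T : Bool) (I : List (ℤ × ℤ)),
      {θ | (I ≠ [] ∧ ∀ a ∈ I, a ≠ 0) ∧ (altP T (I.map (fun a => amt u v a θ)) = 1 ∨
        altP T (I.map (fun a => amt u v a θ)) = -1)} := by
    intro θ hθ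
    simp only [Set.mem_ofPred_eq] at hθ
    unfold Generic at hθ
    push Not at hθ
    obtain ⟨T, I, h1, h2, h3⟩ := hθ
    simp only [Set.mem_iUnion]
    refine ⟨T, I, ⟨h1, h2⟩, ?_⟩
    exact h3
  apply Set.Countable.mono this
  apply Set.countable_iUnion
  intro T
  apply Set.countable_iUnion
  intro I
  by_cases hI : I ≠ [] ∧ ∀ a ∈ I, a ≠ 0
  · apply (countable_bad u v hu hv hlim T I hI.1 hI.2).mono
    rintro θ ⟨_, h⟩
    exact h
  · apply Set.Countable.mono _ Set.countable_empty
    rintro θ ⟨h, _⟩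
    exact hI h

/-! ### first family : `u = θ`, `v = √2 θ` -/

lemma irr_ne {a : ℤ × ℤ} (ha : a ≠ 0) : (a.1 : ℝ) * Real.sqrt 2 + a.2 ≠ 0 := by
  intro h
  by_cases h1 : a.1 = 0
  · rw [h1] at h
    simp at h
    exact ha (Prod.ext h1 h)
  · have : Irrational (Real.sqrt 2) := irrational_sqrt_two
    apply this
    refine ⟨-(a.2 : ℚ) / a.1, ?_⟩
    have h1' : (a.1 : ℝ) ≠ 0 := by exact_mod_cast h1
    push_cast
    rw [div_eq_iff h1']
    linarith

lemma generic_first : {θ : ℝ | ¬ Generic θ (Real.sqrt 2 * θ)}.Countable := by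
  apply generic_countable (fun θ => θ) (fun θ => Real.sqrt 2 * θ)
  · intro θ; fun_prop
  · intro θ; fun_prop
  · intro a ha
    have h := irr_ne ha
    have e : amt (fun θ => θ) (fun θ => Real.sqrt 2 * θ) a =
        fun θ => ((a.1 : ℝ) * Real.sqrt 2 + a.2) * θ := by
      funext θ; unfold amt; ring
    rw [e]
    rcases lt_or_gt_of_ne h with h | h
    · apply limCond_atBot
      exact tendsto_id.const_mul_atTop_of_neg h
    · apply limCond_atTop
      exact tendsto_id.const_mul_atTop h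

/-! ### second family : `u = 2 arsinh (tanh b)`, `v = 2 b - u` -/

def uu (b : ℝ) : ℝ := 2 * Real.arsinh (Real.tanh b)
def vv (b : ℝ) : ℝ := 2 * b - uu b

lemma uu_analytic (b : ℝ) : AnalyticAt ℝ uu b := by
  have h : uu = fun b => 2 * Real.arsinh (Real.sinh b / Real.cosh b) := by
    funext b; unfold uu; rw [Real.tanh_eq_sinh_div_cosh]
  rw [h]
  have h1 : AnalyticAt ℝ (fun b => Real.sinh b / Real.cosh b) b := by
    apply AnalyticAt.div
    · fun_prop
    · fun_prop
    · exact (Real.cosh_pos b).ne'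
  have h2 : AnalyticAt ℝ Real.arsinh (Real.sinh b / Real.cosh b) := Real.analyticAt_arsinh
  have h3 := AnalyticAt.fun_comp (f := fun b => Real.sinh b / Real.cosh b) h2 h1
  exact analyticAt_const.mul h3

lemma vv_analytic (b : ℝ) : AnalyticAt ℝ vv b := by
  have := uu_analytic b
  unfold vv
  fun_prop

lemma tanh_tendsto : Tendsto Real.tanh atTop (𝓝 1) := by
  have h : Real.tanh = fun b => (1 - Real.exp (-(2*b))) / (1 + Real.exp (-(2*b))) := by
    funext b
    rw [Real.tanh_eq_sinh_div_cosh, Real.sinh_eq, Real.cosh_eq]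
    have e1 : Real.exp (-(2*b)) = Real.exp (-b) * Real.exp (-b) := by rw [← Real.exp_add]; ring_nf
    have e2 : Real.exp b * Real.exp (-b) = 1 := by rw [← Real.exp_add]; simp
    have p1 := Real.exp_pos b
    have p2 := Real.exp_pos (-b)
    rw [e1]
    rw [div_eq_div_iff (by positivity) (by positivity)]
    nlinarith [e2]
  rw [h]
  have h1 : Tendsto (fun b : ℝ => Real.exp (-(2*b))) atTop (𝓝 0) := by
    apply Real.tendsto_exp_atBot.comp
    apply tendsto_neg_atTop_atBot.comp
    exact tendsto_id.const_mul_atTop (by norm_num)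
  have h2 := (h1.const_sub 1).div (h1.const_add 1) (by norm_num)
  have h3 : ((1:ℝ) - 0) / (1 + 0) = 1 := by norm_num
  rw [h3] at h2
  exact h2

lemma uu_tendsto : Tendsto uu atTop (𝓝 (2 * Real.arsinh 1)) := by
  unfold uu
  exact ((Real.continuous_arsinh.tendsto 1).comp tanh_tendsto).const_mul 2

lemma generic_second : {b : ℝ | ¬ Generic (uu b) (vv b)}.Countable := by
  apply generic_countable uu vv uu_analytic vv_analytic
  intro a ha
  have hpos : 0 < Real.arsinh 1 := Real.arsinh_pos_iff.mpr one_pos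
  have e : amt uu vv a = fun b => (2 * (a.1 : ℝ)) * b + (((a.2 : ℝ) - a.1) * uu b) := by
    funext b; unfold amt vv; ring
  by_cases h1 : a.1 = 0
  · have h2 : a.2 ≠ 0 := fun h => ha (Prod.ext h1 h)
    rw [e, h1]
    have e2 : (fun b => (2 * ((0:ℤ) : ℝ)) * b + (((a.2 : ℝ) - (0:ℤ)) * uu b)) =
      fun b => (a.2 : ℝ) * uu b := by funext b; simp
    rw [e2]
    apply limCond_of_tendsto (uu_tendsto.const_mul _)
    rw [abs_mul, abs_of_pos (by positivity : 0 < 2 * Real.arsinh 1)]
    have : (1:ℝ) ≤ |(a.2 : ℝ)| := by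
      have := Int.one_le_abs h2
      exact_mod_cast this
    nlinarith
  · rw [e]
    have ht : Tendsto (fun b => (((a.2 : ℝ) - a.1) * uu b)) atTop
      (𝓝 (((a.2 : ℝ) - a.1) * (2 * Real.arsinh 1))) := uu_tendsto.const_mul _
    rcases lt_or_gt_of_ne h1 with h | h
    · apply limCond_atBot
      have h' : (2 * (a.1 : ℝ)) < 0 := by
        have : (a.1 : ℝ) < 0 := by exact_mod_cast h
        linarith
      exact (tendsto_id.const_mul_atTop_of_neg h').atBot_add ht
    · apply limCond_atTop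
      have h' : 0 < (2 * (a.1 : ℝ)) := by
        have : 0 < (a.1 : ℝ) := by exact_mod_cast h
        linarith
      exact (tendsto_id.const_mul_atTop h').atTop_add ht

lemma exists_good {B : Set ℝ} (hB : B.Countable) {x y : ℝ} (hxy : x < y) : ∃ θ, x < θ ∧ θ < y ∧ θ ∉ B := by
  by_contra h
  push Not at h
  have : Set.Ioo x y ⊆ B := fun θ hθ => h θ hθ.1 hθ.2
  have h2 := hB.mono this
  have := Cardinal.mk_Ioo_real hxy
  rw [← Cardinal.le_aleph0_iff_set_countable, this] at h2
  exact absurd h2 (not_le.mpr Cardinal.aleph0_lt_continuum)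

end

end Pool.Agent.Q131.Params
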