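import Mathlib

/-!
Alternating products of hyperbolic boosts in `SL(2,ℝ)`: a ping-pong argument in the limit,
plus analyticity, showing that such a product is `±1` only for countably many parameters.
-/

namespace Pool.Agent.Q131.PP

open Filter Topology Set Matrix

noncomputable section

/-- `√2 - 1 = tan (π/8)`. -/
def tt : ℝ := Real.sqrt 2 - 1

lemma sqrt2_sq : Real.sqrt 2 * Real.sqrt 2 = 2 := Real.mul_self_sqrt (by norm_num)
lemma sqrt2_gt : 1 < Real.sqrt 2 := by
  rw [show (1:ℝ) = Real.sqrt 1 by simp]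
  exact Real.sqrt_lt_sqrt (by norm_num) (by norm_num)
lemma sqrt2_lt : Real.sqrt 2 < 3/2 := by
  rw [show (3/2:ℝ) = Real.sqrt ((3/2)^2) by rw [Real.sqrt_sq (by norm_num)]]
  exact Real.sqrt_lt_sqrt (by norm_num) (by norm_num)
lemma tt_pos : 0 < tt := by unfold tt; linarith [sqrt2_gt]
lemma tt_lt : tt < 1/2 := by unfold tt; linarith [sqrt2_lt]
lemma tt_eq : tt * (1 + tt) = 1 - tt := by unfold tt; nlinarith [sqrt2_sq]

/-- closed cone about the first axis -/
def NX (v : ℝ × ℝ) : Prop := v.1 ≠ 0 ∧ |v.2| ≤ tt * |v.1|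
/-- closed cone about the second axis -/
def NY (v : ℝ × ℝ) : Prop := v.2 ≠ 0 ∧ |v.1| ≤ tt * |v.2|
/-- the complementary cones -/
def GG (v : ℝ × ℝ) : Prop := v.1 ≠ 0 ∧ v.2 ≠ 0 ∧ tt * |v.1| ≤ |v.2| ∧ tt * |v.2| ≤ |v.1|

/-- the reflection exchanging the two pairs of axes -/
def kk (v : ℝ × ℝ) : ℝ × ℝ := ((v.1 + v.2) / Real.sqrt 2, (v.1 - v.2) / Real.sqrt 2)

lemma kk_kk (v : ℝ × ℝ) : kk (kk v) = v := by
  have h : Real.sqrt 2 ≠ 0 := by have := sqrt2_gt; positivity
  have h2 : Real.sqrt 2 ^ 2 = 2 := by rw [sq]; exact sqrt2_sq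
  unfold kk
  ext
  · simp only
    field_simp
    rw [h2]; ring
  · simp only
    field_simp
    rw [h2]; ring

/-- diagonal map -/
def dd (d v : ℝ × ℝ) : ℝ × ℝ := (d.1 * v.1, d.2 * v.2)

/-- word map -/
def HH : List (ℝ × ℝ) → (ℝ × ℝ) → (ℝ × ℝ)
  | [], v => v
  | d :: L, v => dd d (kk (HH L v))

lemma kk_mem {v : ℝ × ℝ} (hv : NX v ∨ NY v) : GG (kk v) := by
  have hs : 0 < Real.sqrt 2 := by have := sqrt2_gt; positivity
  have ht := tt_pos
  have ht2 := tt_lt
  have hte := tt_eq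
  have key : tt * |v.1 + v.2| ≤ |v.1 - v.2| ∧ tt * |v.1 - v.2| ≤ |v.1 + v.2| ∧
      v.1 + v.2 ≠ 0 ∧ v.1 - v.2 ≠ 0 := by
    rcases hv with ⟨h0, h⟩ | ⟨h0, h⟩
    · have hp : 0 < |v.1| := abs_pos.mpr h0
      have a1 : |v.1 + v.2| ≤ |v.1| + |v.2| := abs_add_le _ _
      have a2 : |v.1| - |v.2| ≤ |v.1 - v.2| := abs_sub_abs_le_abs_sub _ _
      have a3 : |v.1 - v.2| ≤ |v.1| + |v.2| := abs_sub _ _
      have a4 : |v.1| - |v.2| ≤ |v.1 + v.2| := by
        have := abs_sub_abs_le_abs_sub v.1 (-v.2)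
        simpa using this
      have b1 : |v.1| + |v.2| ≤ (1 + tt) * |v.1| := by nlinarith
      have b2 : (1 - tt) * |v.1| ≤ |v.1| - |v.2| := by nlinarith
      have b3 : tt * (|v.1| + |v.2|) ≤ (1 - tt) * |v.1| := by
        calc tt * (|v.1| + |v.2|) ≤ tt * ((1 + tt) * |v.1|) := by gcongr
          _ = (1 - tt) * |v.1| := by rw [← mul_assoc, hte]
      have c1 : 0 < (1 - tt) * |v.1| := by apply mul_pos _ hp; linarith
      refine ⟨?_, ?_, ?_, ?_⟩
      · calc tt * |v.1 + v.2| ≤ tt * (|v.1| + |v.2|) := by gcongr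
          _ ≤ _ := by linarith
      · calc tt * |v.1 - v.2| ≤ tt * (|v.1| + |v.2|) := by gcongr
          _ ≤ _ := by linarith
      · apply abs_pos.mp; linarith
      · apply abs_pos.mp; linarith
    · have hp : 0 < |v.2| := abs_pos.mpr h0
      have a1 : |v.1 + v.2| ≤ |v.1| + |v.2| := abs_add_le _ _
      have a2 : |v.2| - |v.1| ≤ |v.1 - v.2| := by
        have := abs_sub_abs_le_abs_sub v.2 v.1
        rwa [abs_sub_comm] at this
      have a3 : |v.1 - v.2| ≤ |v.1| + |v.2| := abs_sub _ _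
      have a4 : |v.2| - |v.1| ≤ |v.1 + v.2| := by
        have := abs_sub_abs_le_abs_sub v.2 (-v.1)
        rw [abs_neg] at this
        rw [show v.1 + v.2 = v.2 - -v.1 by ring]
        exact this
      have b1 : |v.1| + |v.2| ≤ (1 + tt) * |v.2| := by nlinarith
      have b2 : (1 - tt) * |v.2| ≤ |v.2| - |v.1| := by nlinarith
      have b3 : tt * (|v.1| + |v.2|) ≤ (1 - tt) * |v.2| := by
        calc tt * (|v.1| + |v.2|) ≤ tt * ((1 + tt) * |v.2|) := by gcongr
          _ = (1 - tt) * |v.2| := by rw [← mul_assoc, hte]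
      have c1 : 0 < (1 - tt) * |v.2| := by apply mul_pos _ hp; linarith
      refine ⟨?_, ?_, ?_, ?_⟩
      · calc tt * |v.1 + v.2| ≤ tt * (|v.1| + |v.2|) := by gcongr
          _ ≤ _ := by linarith
      · calc tt * |v.1 - v.2| ≤ tt * (|v.1| + |v.2|) := by gcongr
          _ ≤ _ := by linarith
      · apply abs_pos.mp; linarith
      · apply abs_pos.mp; linarith
  obtain ⟨k1, k2, k3, k4⟩ := key
  unfold kk GG
  simp only [abs_div, abs_of_pos hs]
  refine ⟨div_ne_zero k3 hs.ne', div_ne_zero k4 hs.ne', ?_, ?_⟩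
  · rw [← mul_div_assoc]; gcongr
  · rw [← mul_div_assoc]; gcongr

/-- letter of positive type -/
def condP (d : ℝ × ℝ) : Prop := 0 < d.1 ∧ 0 ≤ d.2 ∧ d.2 ≤ tt ^ 2 * d.1
/-- letter of negative type -/
def condN (d : ℝ × ℝ) : Prop := 0 < d.2 ∧ 0 ≤ d.1 ∧ d.1 ≤ tt ^ 2 * d.2

lemma dd_P {d v : ℝ × ℝ} (hd : condP d) (hv : GG v) : NX (dd d v) := by
  obtain ⟨h1, h2, h3⟩ := hd
  obtain ⟨g1, g2, g3, g4⟩ := hv
  have ht := tt_pos
  refine ⟨mul_ne_zero h1.ne' g1, ?_⟩
  simp only [dd, abs_mul, abs_of_pos h1, abs_of_nonneg h2]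
  calc d.2 * |v.2| ≤ (tt ^ 2 * d.1) * |v.2| := by gcongr
    _ = tt * d.1 * (tt * |v.2|) := by ring
    _ ≤ tt * d.1 * |v.1| := by gcongr
    _ = _ := by ring

lemma dd_N {d v : ℝ × ℝ} (hd : condN d) (hv : GG v) : NY (dd d v) := by
  obtain ⟨h1, h2, h3⟩ := hd
  obtain ⟨g1, g2, g3, g4⟩ := hv
  have ht := tt_pos
  refine ⟨mul_ne_zero h1.ne' g2, ?_⟩
  simp only [dd, abs_mul, abs_of_pos h1, abs_of_nonneg h2]
  calc d.1 * |v.1| ≤ (tt ^ 2 * d.2) * |v.1| := by gcongr
    _ = tt * d.2 * (tt * |v.1|) := by ring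
    _ ≤ tt * d.2 * |v.2| := by gcongr
    _ = _ := by ring

lemma HH_mem (L : List (ℝ × ℝ)) (hL : ∀ d ∈ L, condP d ∨ condN d) {v : ℝ × ℝ}
    (hv : NX v ∨ NY v) : NX (HH L v) ∨ NY (HH L v) := by
  induction L with
  | nil => exact hv
  | cons d L ih =>
    have ih' := ih (fun e he => hL e (List.mem_cons_of_mem _ he))
    have := kk_mem ih'
    rcases hL d List.mem_cons_self with h | h
    · exact Or.inl (dd_P h this)
    · exact Or.inr (dd_N h this)

lemma HH_cons_P (d : ℝ × ℝ) (L : List (ℝ × ℝ)) (hd : condP d)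
    (hL : ∀ e ∈ L, condP e ∨ condN e) {v : ℝ × ℝ} (hv : NX v ∨ NY v) :
    NX (HH (d :: L) v) := dd_P hd (kk_mem (HH_mem L hL hv))

lemma HH_cons_N (d : ℝ × ℝ) (L : List (ℝ × ℝ)) (hd : condN d)
    (hL : ∀ e ∈ L, condP e ∨ condN e) {v : ℝ × ℝ} (hv : NX v ∨ NY v) :
    NY (HH (d :: L) v) := dd_N hd (kk_mem (HH_mem L hL hv))

/-- linear functional vanishing on `kk^[n] (0,1)` -/
def fP (n : ℕ) (v : ℝ × ℝ) : ℝ := if Even n then v.1 else v.1 + v.2
/-- linear functional vanishing on `kk^[n] (1,0)` -/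
def fN (n : ℕ) (v : ℝ × ℝ) : ℝ := if Even n then v.2 else v.1 - v.2

lemma fP_ne {n : ℕ} {v : ℝ × ℝ} (hv : NX v) : fP n v ≠ 0 := by
  obtain ⟨h0, h⟩ := hv
  have ht := tt_lt
  unfold fP
  split_ifs
  · exact h0
  · intro h1
    have h2 : v.2 = - v.1 := by linarith
    rw [h2, abs_neg] at h
    have := abs_pos.mpr h0
    nlinarith

lemma fN_ne {n : ℕ} {v : ℝ × ℝ} (hv : NY v) : fN n v ≠ 0 := by
  obtain ⟨h0, h⟩ := hv
  have ht := tt_lt
  unfold fN
  split_ifs
  · exact h0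
  · intro h1
    have h2 : v.1 = v.2 := by linarith
    rw [h2] at h
    have := abs_pos.mpr h0
    nlinarith

lemma kk_iter (n : ℕ) (v : ℝ × ℝ) : kk^[n] v = if Even n then v else kk v := by
  induction n with
  | zero => simp
  | succ n ih =>
    rw [Function.iterate_succ_apply', ih]
    by_cases h : Even n
    · simp [h, Nat.even_add_one]
    · simp [h, Nat.even_add_one, kk_kk]

lemma kk_iter_iter (n : ℕ) (v : ℝ × ℝ) : kk^[n] (kk^[n] v) = v := by
  rw [kk_iter, kk_iter]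
  split_ifs
  · rfl
  · exact kk_kk v

lemma fP_iter (n : ℕ) (e : ℝ) : fP n (e • kk^[n] (0, 1)) = 0 := by
  rw [kk_iter]; unfold fP kk
  split_ifs
  · simp
  · simp; ring

lemma fN_iter (n : ℕ) (e : ℝ) : fN n (e • kk^[n] (1, 0)) = 0 := by
  rw [kk_iter]; unfold fN kk
  split_ifs
  · simp
  · simp

/-! ### Boost matrices -/

/-- boost along the first axis -/
def bX (s : ℝ) : SpecialLinearGroup (Fin 2) ℝ :=
  ⟨!![Real.exp (s/2), 0; 0, Real.exp (-s/2)], by
    rw [Matrix.det_fin_two_of, mul_zero, sub_zero, ← Real.exp_add]; ring_nf; simp⟩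

/-- boost along the second axis -/
def bY (s : ℝ) : SpecialLinearGroup (Fin 2) ℝ :=
  ⟨!![Real.cosh (s/2), Real.sinh (s/2); Real.sinh (s/2), Real.cosh (s/2)], by
    rw [Matrix.det_fin_two_of]; have := Real.cosh_sq_sub_sinh_sq (s/2); nlinarith⟩

/-- alternating products -/
def altP : Bool → List ℝ → SpecialLinearGroup (Fin 2) ℝ
  | _, [] => 1
  | true, s :: L => bX s * altP false L
  | false, s :: L => bY s * altP true L

/-- the linear action on pairs -/
def mv (g : SpecialLinearGroup (Fin 2) ℝ) (v : ℝ × ℝ) : ℝ × ℝ :=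
  (g.1 0 0 * v.1 + g.1 0 1 * v.2, g.1 1 0 * v.1 + g.1 1 1 * v.2)

lemma mv_mul (g h : SpecialLinearGroup (Fin 2) ℝ) (v : ℝ × ℝ) : mv (g * h) v = mv g (mv h v) := by
  have e : (g * h).1 = g.1 * h.1 := rfl
  unfold mv
  rw [e]
  simp only [Matrix.mul_apply, Fin.sum_univ_two]
  ext <;> simp only <;> ring

lemma mv_one (v : ℝ × ℝ) : mv 1 v = v := by
  unfold mv; simp

lemma mv_neg_one (v : ℝ × ℝ) : mv (-1) v = -v := by
  unfold mv; ext <;> simp

/-- the pair of a boost amount -/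
def ex (s : ℝ) : ℝ × ℝ := (Real.exp (s/2), Real.exp (-s/2))

lemma mv_bX (s : ℝ) (v : ℝ × ℝ) : mv (bX s) v = dd (ex s) v := by
  unfold mv bX dd ex; simp

lemma mv_bY (s : ℝ) (v : ℝ × ℝ) : mv (bY s) v = kk (dd (ex s) (kk v)) := by
  have h : Real.sqrt 2 ≠ 0 := by have := sqrt2_gt; positivity
  have h2 : Real.sqrt 2 ^ 2 = 2 := by rw [sq]; exact sqrt2_sq
  unfold mv bY dd ex kk
  rw [show (-s/2) = -(s/2) by ring]
  ext
  · simp [Real.cosh_eq, Real.sinh_eq]
    field_simp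
    rw [h2]; ring
  · simp [Real.cosh_eq, Real.sinh_eq]
    field_simp
    rw [h2]; ring

lemma mv_altP (L : List ℝ) : (∀ v, mv (altP true L) v = HH (L.map ex) (kk^[L.length] v)) ∧
    (∀ v, mv (altP false L) v = kk (HH (L.map ex) (kk^[L.length] (kk v)))) := by
  induction L with
  | nil => simp [altP, HH, mv_one, kk_kk]
  | cons s L ih =>
    obtain ⟨ih1, ih2⟩ := ih
    constructor
    · intro v
      rw [altP, mv_mul, ih2, mv_bX]
      simp only [List.map_cons, HH, List.length_cons, Function.iterate_succ_apply]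
    · intro v
      rw [altP, mv_mul, ih1, mv_bY]
      simp only [List.map_cons, HH, List.length_cons, Function.iterate_succ_apply, kk_kk]

lemma kk_smul (e : ℝ) (v : ℝ × ℝ) : kk (e • v) = e • kk v := by
  unfold kk; ext <;> simp <;> ring

lemma HH_of_altP (b : Bool) (L : List ℝ) (h : altP b L = 1 ∨ altP b L = -1) :
    ∃ e : ℝ, ∀ w, HH (L.map ex) w = e • kk^[L.length] w := by
  obtain ⟨h1, h2⟩ := mv_altP L
  obtain ⟨e, he⟩ : ∃ e : ℝ, ∀ v, mv (altP b L) v = e • v := by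
    rcases h with h | h
    · exact ⟨1, fun v => by rw [h, mv_one, one_smul]⟩
    · exact ⟨-1, fun v => by rw [h, mv_neg_one]; simp⟩
  refine ⟨e, fun w => ?_⟩
  cases b with
  | true =>
    have := h1 (kk^[L.length] w)
    rw [he, kk_iter_iter] at this
    exact this.symm
  | false =>
    have := h2 (kk (kk^[L.length] w))
    rw [he, kk_kk, kk_iter_iter] at this
    have h3 := congrArg kk this
    rw [kk_kk, kk_smul, kk_kk] at h3
    exact h3.symm

/-! ### Scaling -/

lemma HH_scale (L : List (ℝ × ℝ)) (c : ℝ × ℝ → ℝ) (v : ℝ × ℝ) :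
    HH (L.map (fun d => c d • d)) v = ((L.map c).prod) • HH L v := by
  induction L with
  | nil => simp [HH]
  | cons d L ih =>
    simp only [List.map_cons, HH, ih, kk_smul, List.prod_cons]
    unfold dd
    ext <;> simp <;> ring

lemma kk_continuous : Continuous kk := by unfold kk; fun_prop

lemma HH_tendsto {F : Filter ℝ} (L : List (ℤ × ℤ)) (f : ℤ × ℤ → ℝ → ℝ × ℝ) (g : ℤ × ℤ → ℝ × ℝ)
    (h : ∀ a ∈ L, Tendsto (f a) F (𝓝 (g a))) (v : ℝ × ℝ) :
    Tendsto (fun θ => HH (L.map (fun a => f a θ)) v) F (𝓝 (HH (L.map g) v)) := by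
  induction L with
  | nil => simp only [List.map_nil, HH]; exact tendsto_const_nhds
  | cons a L ih =>
    have ih' := ih (fun b hb => h b (List.mem_cons_of_mem _ hb))
    have h1 := h a List.mem_cons_self
    have h2 := (kk_continuous.tendsto _).comp ih'
    simp only [List.map_cons, HH]
    have hc : Continuous (fun p : (ℝ × ℝ) × (ℝ × ℝ) => dd p.1 p.2) := by unfold dd; fun_prop
    have := (hc.tendsto (g a, kk (HH (L.map g) v))).comp (h1.prodMk_nhds h2)
    exact this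

lemma HH_analytic (L : List (ℝ → ℝ)) (h : ∀ s ∈ L, ∀ θ, AnalyticAt ℝ s θ) (v : ℝ × ℝ) :
    (∀ θ, AnalyticAt ℝ (fun θ => (HH ((L.map (fun s => s θ)).map ex) v).1) θ) ∧
    (∀ θ, AnalyticAt ℝ (fun θ => (HH ((L.map (fun s => s θ)).map ex) v).2) θ) := by
  induction L with
  | nil => simp only [List.map_nil, HH]; exact ⟨fun _ => analyticAt_const, fun _ => analyticAt_const⟩
  | cons s L ih =>
    obtain ⟨i1, i2⟩ := ih (fun b hb => h b (List.mem_cons_of_mem _ hb))
    have h1 := h s List.mem_cons_self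
    simp only [List.map_cons, HH, dd, kk, ex]
    simp only [List.map_map] at i1 i2 ⊢
    have e : (fun s : ℝ → ℝ => s) = id := rfl
    refine ⟨fun θ => ?_, fun θ => ?_⟩
    · have a := i1 θ
      have b := i2 θ
      have c := h1 θ
      fun_prop
    · have a := i1 θ
      have b := i2 θ
      have c := h1 θ
      fun_prop

lemma countable_zeros (f : ℝ → ℝ) (hf : ∀ θ, AnalyticAt ℝ f θ) (h : ∃ θ, f θ ≠ 0) :
    {θ | f θ = 0}.Countable := by
  have hA : AnalyticOnNhd ℝ f univ := fun x _ => hf x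
  obtain ⟨θ₀, h0⟩ := h
  have hc : (f ⁻¹' {0})ᶜ ∈ codiscreteWithin (univ : Set ℝ) := by
    rw [← preimage_compl]
    exact hA.preimage_zero_mem_codiscrete h0
  have h1 : IsDiscrete (f ⁻¹' {0}) := by
    have := isDiscrete_of_codiscreteWithin hc
    rwa [inter_univ] at this
  exact (HereditarilyLindelofSpace.isLindelof (f ⁻¹' {0})).countable_of_isDiscrete h1

/-- The amount attached to an integer pair. -/
def amt (u v : ℝ → ℝ) (a : ℤ × ℤ) (θ : ℝ) : ℝ := a.1 * v θ + a.2 * u θ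

/-- limit hypothesis on a letter -/
def LimCond (s : ℝ → ℝ) : Prop :=
  ∃ c : ℝ → ℝ, (∀ θ, 0 < c θ) ∧ ∃ d : ℝ × ℝ, (condP d ∨ condN d) ∧
    Tendsto (fun θ => c θ • ex (s θ)) atTop (𝓝 d)

theorem countable_bad (u v : ℝ → ℝ) (hu : ∀ θ, AnalyticAt ℝ u θ) (hv : ∀ θ, AnalyticAt ℝ v θ)
    (hlim : ∀ a : ℤ × ℤ, a ≠ 0 → LimCond (amt u v a)) (b : Bool) (L : List (ℤ × ℤ)) (hL : L ≠ [])
    (hne : ∀ a ∈ L, a ≠ 0) :
    {θ | altP b (L.map (fun a => amt u v a θ)) = 1 ∨
      altP b (L.map (fun a => amt u v a θ)) = -1}.Countable := by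
  classical
  have hamt : ∀ a, ∀ θ, AnalyticAt ℝ (amt u v a) θ := by
    intro a θ
    have := hu θ
    have := hv θ
    unfold amt
    fun_prop
  choose c hc d hd ht using fun a : {a : ℤ × ℤ // a ≠ 0} => hlim a.1 a.2
  -- the total functions
  set c' : ℤ × ℤ → ℝ → ℝ := fun a θ => if h : a ≠ 0 then c ⟨a, h⟩ θ else 1 with hc'
  set d' : ℤ × ℤ → ℝ × ℝ := fun a => if h : a ≠ 0 then d ⟨a, h⟩ else 0 with hd'
  have hT : ∀ w, Tendsto (fun θ => HH (L.map (fun a => c' a θ • ex (amt u v a θ))) w) atTop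
      (𝓝 (HH (L.map d') w)) := by
    intro w
    apply HH_tendsto L (fun a θ => c' a θ • ex (amt u v a θ)) d'
    intro a ha
    have h := hne a ha
    simp only [hc', hd', dif_pos h]
    exact ht ⟨a, h⟩
  have hcd : ∀ e ∈ L.map d', condP e ∨ condN e := by
    intro e he
    rw [List.mem_map] at he
    obtain ⟨a, ha, rfl⟩ := he
    have h := hne a ha
    simp only [hd', dif_pos h]
    exact hd ⟨a, h⟩
  have hsc : ∀ θ w, ∃ r : ℝ, 0 < r ∧ HH (L.map (fun a => c' a θ • ex (amt u v a θ))) w =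
      r • HH ((L.map (fun a => amt u v a θ)).map ex) w := by
    intro θ w
    clear hT hcd hne hL
    induction L with
    | nil => exact ⟨1, one_pos, by simp [HH]⟩
    | cons a L ih =>
      obtain ⟨r, hr, hr2⟩ := ih
      have hpos : 0 < c' a θ := by
        simp only [hc']
        split_ifs
        · exact hc _ _
        · exact one_pos
      refine ⟨c' a θ * r, mul_pos hpos hr, ?_⟩
      simp only [List.map_cons, HH]
      rw [hr2, kk_smul]
      unfold dd
      ext <;> simp <;> ring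
  -- general closing argument
  have main : ∀ (f : ℝ × ℝ → ℝ) (w : ℝ × ℝ), (∀ r : ℝ, ∀ p, f (r • p) = r * f p) → Continuous f →
      (∀ θ, AnalyticAt ℝ (fun θ => f (HH ((L.map (fun a => amt u v a θ)).map ex) w)) θ) →
      (∀ e : ℝ, f (e • kk^[L.length] w) = 0) → f (HH (L.map d') w) ≠ 0 →
      {θ | altP b (L.map (fun a => amt u v a θ)) = 1 ∨
      altP b (L.map (fun a => amt u v a θ)) = -1}.Countable := by
    intro f w hf1 hf2 hf3 hf4 hf5
    have hz := countable_zeros _ hf3 (by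
      have h1 := (hf2.tendsto _).comp (hT w)
      have h2 := h1.eventually_ne hf5
      obtain ⟨θ, hθ⟩ := h2.exists
      refine ⟨θ, ?_⟩
      obtain ⟨r, hr, hr2⟩ := hsc θ w
      simp only [Function.comp_apply, hr2, hf1] at hθ
      exact fun h => hθ (by rw [h, mul_zero]))
    apply hz.mono
    intro θ hθ
    obtain ⟨e, he⟩ := HH_of_altP b _ hθ
    simp only [mem_setOf_eq]
    rw [he w]
    simp only [List.length_map]
    exact hf4 e
  obtain ⟨A1, A2⟩ := HH_analytic (L.map (fun a => amt u v a)) (by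
    intro s hs
    rw [List.mem_map] at hs
    obtain ⟨a, _, rfl⟩ := hs
    exact hamt a) (0, 1)
  obtain ⟨B1, B2⟩ := HH_analytic (L.map (fun a => amt u v a)) (by
    intro s hs
    rw [List.mem_map] at hs
    obtain ⟨a, _, rfl⟩ := hs
    exact hamt a) (1, 0)
  simp only [List.map_map, Function.comp_def] at A1 A2 B1 B2 main
  obtain ⟨a, L', rfl⟩ := List.exists_cons_of_ne_nil hL
  rw [List.map_cons] at hcd
  have hcd' : ∀ e ∈ L'.map d', condP e ∨ condN e := fun e he => hcd e (List.mem_cons_of_mem _ he)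
  rcases hcd (d' a) List.mem_cons_self with h | h
  · apply main (fP (a :: L').length) (0, 1)
    · intro r p; unfold fP; split_ifs <;> simp; ring
    · unfold fP; split_ifs <;> fun_prop
    · intro θ
      have a1 := A1 θ
      have a2 := A2 θ
      unfold fP
      split_ifs
      · exact a1
      · exact a1.add a2
    · intro e; exact fP_iter _ e
    · apply fP_ne
      rw [List.map_cons]
      exact HH_cons_P _ _ h hcd' (Or.inr ⟨by norm_num, by simp [tt_pos.le]⟩)
  · apply main (fN (a :: L').length) (1, 0)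
    · intro r p; unfold fN; split_ifs <;> simp; ring
    · unfold fN; split_ifs <;> fun_prop
    · intro θ
      have a1 := B1 θ
      have a2 := B2 θ
      unfold fN
      split_ifs
      · exact a2
      · exact a1.sub a2
    · intro e; exact fN_iter _ e
    · apply fN_ne
      rw [List.map_cons]
      exact HH_cons_N _ _ h hcd' (Or.inl ⟨by norm_num, by simp [tt_pos.le]⟩)

end

end Pool.Agent.Q131.PP
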